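import Mathlib

/-! Averages over compact open subgroups, in algebraic form. -/

namespace Pool.Agent.W526.LL

open Representation

section Avg

variable {G V : Type} [Group G] [AddCommGroup V] [Module ℂ V] (ρ : Representation ℂ G V)
  (H N : Subgroup G)

/-- Average over a set of representatives of `H / (N ∩ H)`. -/
noncomputable def avg : V →ₗ[ℂ] V :=
  ((Nat.card (H ⧸ N.subgroupOf H) : ℂ)⁻¹) •
    ∑ᶠ c : H ⧸ N.subgroupOf H, ρ ((Quotient.out c : H) : G)

variable {ρ H N}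

/-- Evaluation of an average. -/
theorem avg_apply [Fintype (H ⧸ N.subgroupOf H)] (v : V) :
    avg ρ H N v = ((Nat.card (H ⧸ N.subgroupOf H) : ℂ)⁻¹) •
      ∑ c : H ⧸ N.subgroupOf H, ρ ((Quotient.out c : H) : G) v := by
  classical
  rw [avg, finsum_eq_sum_of_fintype]
  simp

theorem avg_fix [Finite (H ⧸ N.subgroupOf H)] {v : V} (hv : ∀ h ∈ H, ρ h v = v) :
    avg ρ H N v = v := by
  classical
  have := Fintype.ofFinite (H ⧸ N.subgroupOf H)
  rw [avg_apply]
  have : ∀ c : H ⧸ N.subgroupOf H, ρ ((Quotient.out c : H) : G) v = v :=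
    fun c => hv _ (Quotient.out c : H).2
  simp only [this, Finset.sum_const, Finset.card_univ, Nat.card_eq_fintype_card]
  rw [← Nat.cast_smul_eq_nsmul ℂ, smul_smul, inv_mul_cancel₀, one_smul]
  exact_mod_cast Fintype.card_ne_zero

theorem avg_mem [Finite (H ⧸ N.subgroupOf H)] {P : Submodule ℂ V}
    (hP : ∀ g, ∀ v ∈ P, ρ g v ∈ P) {v : V} (hv : v ∈ P) : avg ρ H N v ∈ P := by
  classical
  have := Fintype.ofFinite (H ⧸ N.subgroupOf H)
  rw [avg_apply]
  exact P.smul_mem _ (P.sum_mem fun c _ => hP _ _ hv)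

theorem avg_comm {T : V →ₗ[ℂ] V} [Finite (H ⧸ N.subgroupOf H)]
    (hT : ∀ g v, T (ρ g v) = ρ g (T v)) (v : V) :
    avg ρ H N (T v) = T (avg ρ H N v) := by
  classical
  have := Fintype.ofFinite (H ⧸ N.subgroupOf H)
  rw [avg_apply, avg_apply]
  simp [hT, map_sum]

/-- two representatives of the same coset act in the same way on `N`-fixed vectors. -/
theorem act_eq_of_mk {v : V} (hv : ∀ n ∈ N, ρ n v = v) {a b : H}
    (hab : (QuotientGroup.mk a : H ⧸ N.subgroupOf H) = QuotientGroup.mk b) :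
    ρ (a : G) v = ρ (b : G) v := by
  rw [QuotientGroup.eq] at hab
  have h1 : ((a : G)⁻¹ * (b : G)) ∈ N := by simpa [Subgroup.mem_subgroupOf] using hab
  have h2 := hv _ h1
  have h3 : ρ (b : G) v = ρ ((a : G) * ((a : G)⁻¹ * (b : G))) v := by
    rw [mul_inv_cancel_left]
  rw [h3, map_mul, Module.End.mul_apply, h2]

theorem act_out {v : V} (hv : ∀ n ∈ N, ρ n v = v) (a : H) :
    ρ ((Quotient.out (QuotientGroup.mk a : H ⧸ N.subgroupOf H) : H) : G) v = ρ (a : G) v :=
  act_eq_of_mk hv (QuotientGroup.out_eq' _)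

theorem avg_act_left [Finite (H ⧸ N.subgroupOf H)] {v : V} (hv : ∀ n ∈ N, ρ n v = v)
    {h : G} (hh : h ∈ H) : ρ h (avg ρ H N v) = avg ρ H N v := by
  classical
  have := Fintype.ofFinite (H ⧸ N.subgroupOf H)
  rw [avg_apply, map_smul, map_sum]
  congr 1
  have key : ∀ c : H ⧸ N.subgroupOf H, ρ h (ρ ((Quotient.out c : H) : G) v) =
      ρ ((Quotient.out ((⟨h, hh⟩ : H) • c) : H) : G) v := by
    intro c
    have e1 : (⟨h, hh⟩ : H) • c = QuotientGroup.mk (⟨h, hh⟩ * (Quotient.out c : H)) := by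
      conv_lhs => rw [← QuotientGroup.out_eq' c]
      rfl
    rw [e1, act_out hv, ← Module.End.mul_apply, ← map_mul]
    rfl
  simp only [key]
  exact Equiv.sum_comp (MulAction.toPerm (⟨h, hh⟩ : H))
    (fun c : H ⧸ N.subgroupOf H => ρ ((Quotient.out c : H) : G) v)

theorem avg_act_right [Finite (H ⧸ N.subgroupOf H)] {v : V} (hv : ∀ n ∈ N, ρ n v = v)
    (hN : ∀ h ∈ H, ∀ n ∈ N, h * n * h⁻¹ ∈ N)
    {h : G} (hh : h ∈ H) : avg ρ H N (ρ h v) = avg ρ H N v := by
  classical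
  have := Fintype.ofFinite (H ⧸ N.subgroupOf H)
  have hnorm : (N.subgroupOf H).Normal := by
    constructor
    intro n hn g
    rw [Subgroup.mem_subgroupOf] at hn ⊢
    exact hN g g.2 n hn
  rw [avg_apply, avg_apply]
  congr 1
  have key : ∀ c : H ⧸ N.subgroupOf H, ρ ((Quotient.out c : H) : G) (ρ h v) =
      ρ ((Quotient.out (c * QuotientGroup.mk (⟨h, hh⟩ : H)) : H) : G) v := by
    intro c
    have e1 : c * QuotientGroup.mk (⟨h, hh⟩ : H) =
        QuotientGroup.mk ((Quotient.out c : H) * (⟨h, hh⟩ : H)) := by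
      conv_lhs => rw [← QuotientGroup.out_eq' c]
      rfl
    rw [e1, act_out hv, ← Module.End.mul_apply, ← map_mul]
    rfl
  simp only [key]
  exact Equiv.sum_comp (Equiv.mulRight (QuotientGroup.mk (⟨h, hh⟩ : H) : H ⧸ N.subgroupOf H))
    (fun c : H ⧸ N.subgroupOf H => ρ ((Quotient.out c : H) : G) v)

theorem avg_conj [Finite (H ⧸ N.subgroupOf H)] {v : V} (hv : ∀ n ∈ N, ρ n v = v)
    {k : G} (hH : ∀ h ∈ H, k * h * k⁻¹ ∈ H) (hH' : ∀ h ∈ H, k⁻¹ * h * k ∈ H)
    (hN : ∀ n ∈ N, k * n * k⁻¹ ∈ N) (hN' : ∀ n ∈ N, k⁻¹ * n * k ∈ N) :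
    avg ρ H N (ρ k v) = ρ k (avg ρ H N v) := by
  classical
  have := Fintype.ofFinite (H ⧸ N.subgroupOf H)
  rw [avg_apply, avg_apply, map_smul, map_sum]
  congr 1
  let φ : H ≃ H :=
    { toFun := fun h => ⟨k⁻¹ * h * k, hH' h h.2⟩
      invFun := fun h => ⟨k * h * k⁻¹, hH h h.2⟩
      left_inv := fun h => by ext; simp [mul_assoc]
      right_inv := fun h => by ext; simp [mul_assoc] }
  have hφ : ∀ a b : H, (QuotientGroup.leftRel (N.subgroupOf H)) a b ↔
      (QuotientGroup.leftRel (N.subgroupOf H)) (φ a) (φ b) := by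
    intro a b
    rw [QuotientGroup.leftRel_apply, QuotientGroup.leftRel_apply, Subgroup.mem_subgroupOf,
      Subgroup.mem_subgroupOf]
    have e : (((φ a)⁻¹ * φ b : H) : G) = k⁻¹ * ((a⁻¹ * b : H) : G) * k := by
      simp [φ, mul_assoc]
    rw [e]
    constructor
    · intro h; exact hN' _ h
    · intro h
      have := hN _ h
      simpa [mul_assoc] using this
  let ψ : (H ⧸ N.subgroupOf H) ≃ (H ⧸ N.subgroupOf H) := Quotient.congr φ hφ
  have key : ∀ c : H ⧸ N.subgroupOf H, ρ ((Quotient.out c : H) : G) (ρ k v) =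
      ρ k (ρ ((Quotient.out (ψ c) : H) : G) v) := by
    intro c
    have e1 : ψ c = QuotientGroup.mk (φ (Quotient.out c : H)) := by
      conv_lhs => rw [← QuotientGroup.out_eq' c]
      rfl
    rw [e1, act_out hv, ← Module.End.mul_apply, ← Module.End.mul_apply, ← map_mul, ← map_mul]
    congr 2
    simp [φ, mul_assoc]
  simp only [key]
  exact Equiv.sum_comp ψ
    (fun c : H ⧸ N.subgroupOf H => ρ k (ρ ((Quotient.out c : H) : G) v))

end Avg

end Pool.Agent.W526.LL
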