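import Mathlib
import Pool.Agent.W526.LL.Avg

/-! Elementary structure of `GL₂` of a discretely valued field. -/

namespace Pool.Agent.W526.LL

open Matrix WithZero

section Basic

variable {F : Type} [Field F]

/-- The invertible matrix with rows `(a, b)` and `(c, d)`. -/
noncomputable def gl2 (a b c d : F) (h : a * d - b * c ≠ 0) : GL (Fin 2) F :=
  Matrix.GeneralLinearGroup.mkOfDetNeZero !![a, b; c, d] (by rwa [Matrix.det_fin_two_of])

@[simp] theorem gl2_00 (a b c d : F) (h) : (gl2 a b c d h) 0 0 = a := rfl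
@[simp] theorem gl2_01 (a b c d : F) (h) : (gl2 a b c d h) 0 1 = b := rfl
@[simp] theorem gl2_10 (a b c d : F) (h) : (gl2 a b c d h) 1 0 = c := rfl
@[simp] theorem gl2_11 (a b c d : F) (h) : (gl2 a b c d h) 1 1 = d := rfl

theorem ext4 {g h : GL (Fin 2) F} (h00 : g 0 0 = h 0 0) (h01 : g 0 1 = h 0 1)
    (h10 : g 1 0 = h 1 0) (h11 : g 1 1 = h 1 1) : g = h := by
  apply Matrix.GeneralLinearGroup.ext
  intro i j
  fin_cases i <;> fin_cases j <;> assumption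

theorem mul_ij (g h : GL (Fin 2) F) (i j : Fin 2) :
    (g * h) i j = g i 0 * h 0 j + g i 1 * h 1 j := by
  rw [Matrix.GeneralLinearGroup.coe_mul, Matrix.mul_apply, Fin.sum_univ_two]

/-- the determinant in terms of entries -/
def dt (g : GL (Fin 2) F) : F := g 0 0 * g 1 1 - g 0 1 * g 1 0

theorem dt_eq_det (g : GL (Fin 2) F) : dt g = Matrix.det (g : Matrix (Fin 2) (Fin 2) F) := by
  rw [Matrix.det_fin_two]; rfl

theorem dt_ne_zero (g : GL (Fin 2) F) : dt g ≠ 0 := by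
  rw [dt_eq_det]
  exact (Matrix.isUnits_det_units g).ne_zero

theorem dt_mul (g h : GL (Fin 2) F) : dt (g * h) = dt g * dt h := by
  rw [dt_eq_det, dt_eq_det, dt_eq_det, Matrix.GeneralLinearGroup.coe_mul, Matrix.det_mul]

@[simp] theorem one_00 : (1 : GL (Fin 2) F) 0 0 = 1 := rfl
@[simp] theorem one_01 : (1 : GL (Fin 2) F) 0 1 = 0 := rfl
@[simp] theorem one_10 : (1 : GL (Fin 2) F) 1 0 = 0 := rfl
@[simp] theorem one_11 : (1 : GL (Fin 2) F) 1 1 = 1 := rfl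

@[simp] theorem dt_one : dt (1 : GL (Fin 2) F) = 1 := by simp [dt]

@[simp] theorem dt_gl2 (a b c d : F) (h) : dt (gl2 a b c d h) = a * d - b * c := rfl

theorem inv_eq (g : GL (Fin 2) F) : g⁻¹ = gl2 ((dt g)⁻¹ * g 1 1) (-((dt g)⁻¹ * g 0 1))
    (-((dt g)⁻¹ * g 1 0)) ((dt g)⁻¹ * g 0 0) (by
      have := dt_ne_zero g
      have h2 : (dt g)⁻¹ * g 1 1 * ((dt g)⁻¹ * g 0 0) - -((dt g)⁻¹ * g 0 1) * -((dt g)⁻¹ * g 1 0)
          = (dt g)⁻¹ * (dt g)⁻¹ * dt g := by simp only [dt]; ring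
      rw [h2]; simp [this]) := by
  have hd := dt_ne_zero g
  rw [inv_eq_iff_mul_eq_one]
  apply ext4 <;> rw [mul_ij] <;> simp
  · have : g 0 0 * ((dt g)⁻¹ * g 1 1) + -(g 0 1 * ((dt g)⁻¹ * g 1 0)) = (dt g)⁻¹ * dt g := by
      simp only [dt]; ring
    rw [this]; simp [hd]
  · ring
  · ring
  · have : -(g 1 0 * ((dt g)⁻¹ * g 0 1)) + g 1 1 * ((dt g)⁻¹ * g 0 0) = (dt g)⁻¹ * dt g := by
      simp only [dt]; ring
    rw [this]; simp [hd]

theorem inv_00 (g : GL (Fin 2) F) : g⁻¹ 0 0 = (dt g)⁻¹ * g 1 1 := by rw [inv_eq]; rfl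
theorem inv_01 (g : GL (Fin 2) F) : g⁻¹ 0 1 = -((dt g)⁻¹ * g 0 1) := by rw [inv_eq]; rfl
theorem inv_10 (g : GL (Fin 2) F) : g⁻¹ 1 0 = -((dt g)⁻¹ * g 1 0) := by rw [inv_eq]; rfl
theorem inv_11 (g : GL (Fin 2) F) : g⁻¹ 1 1 = (dt g)⁻¹ * g 0 0 := by rw [inv_eq]; rfl

theorem dt_inv (g : GL (Fin 2) F) : dt g⁻¹ = (dt g)⁻¹ := by
  have h : dt (g * g⁻¹) = 1 := by rw [mul_inv_cancel, dt_one]
  rw [dt_mul] at h
  exact eq_inv_of_mul_eq_one_right h

/-- lower unipotent matrices -/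
noncomputable def lo (t : F) : GL (Fin 2) F := gl2 1 0 t 1 (by simp)
/-- upper unipotent matrices -/
noncomputable def up (t : F) : GL (Fin 2) F := gl2 1 t 0 1 (by simp)
/-- the Weyl element -/
noncomputable def ws : GL (Fin 2) F := gl2 0 1 1 0 (by simp)
/-- scalar matrices -/
noncomputable def sc (a : F) (h : a ≠ 0) : GL (Fin 2) F := gl2 a 0 0 a (by simp [h])
/-- the matrices `diag (1, a)` -/
noncomputable def dg (a : F) (h : a ≠ 0) : GL (Fin 2) F := gl2 1 0 0 a (by simp [h])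

theorem dg_mul (a b : F) (ha : a ≠ 0) (hb : b ≠ 0) :
    dg a ha * dg b hb = dg (a * b) (mul_ne_zero ha hb) := by
  apply ext4 <;> simp [mul_ij, dg]

theorem dg_one : dg (1 : F) one_ne_zero = 1 := by
  apply ext4 <;> simp [dg]

theorem sc_mul (a b : F) (ha : a ≠ 0) (hb : b ≠ 0) :
    sc a ha * sc b hb = sc (a * b) (mul_ne_zero ha hb) := by
  apply ext4 <;> simp [mul_ij, sc]

theorem sc_one : sc (1 : F) one_ne_zero = 1 := by
  apply ext4 <;> simp [sc]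

theorem sc_comm (a : F) (ha : a ≠ 0) (g : GL (Fin 2) F) : sc a ha * g = g * sc a ha := by
  apply ext4 <;> simp [mul_ij, sc, mul_comm]

theorem dg_lo (a t : F) (ha : a ≠ 0) : dg a ha * lo t = lo (a * t) * dg a ha := by
  apply ext4 <;> simp [mul_ij, dg, lo]

theorem lo_mul (a b : F) : lo a * lo b = lo (a + b) := by
  apply ext4 <;> simp [mul_ij, lo]

theorem up_mul (a b : F) : up a * up b = up (a + b) := by
  apply ext4 <;> simp [mul_ij, up, add_comm]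

theorem lo_zero : lo (0 : F) = 1 := by apply ext4 <;> simp [lo]
theorem up_zero : up (0 : F) = 1 := by apply ext4 <;> simp [up]

theorem ws_lo (t : F) : ws * lo t = up t * ws := by
  apply ext4 <;> simp [mul_ij, ws, lo, up]

theorem ws_ws : (ws : GL (Fin 2) F) * ws = 1 := by
  apply ext4 <;> simp [mul_ij, ws]

end Basic

section Val

variable {F : Type} [Field F] [Valued F ℤᵐ⁰]

/-- `GL₂(O)`: integral entries and unit determinant. -/
def maxK (F : Type) [Field F] [Valued F ℤᵐ⁰] : Subgroup (GL (Fin 2) F) where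
  carrier := {g | (∀ i j, Valued.v (g i j) ≤ 1) ∧ Valued.v (dt g) = 1}
  mul_mem' := by
    rintro a b ⟨ha, ha'⟩ ⟨hb, hb'⟩
    refine ⟨fun i j => ?_, by rw [dt_mul, map_mul, ha', hb', one_mul]⟩
    rw [mul_ij]
    refine Valued.v.map_add_le ?_ ?_ <;> rw [map_mul] <;> exact mul_le_one' (ha _ _) (hb _ _)
  one_mem' := by
    refine ⟨fun i j => ?_, by simp⟩
    fin_cases i <;> fin_cases j <;> simp
  inv_mem' := by
    rintro g ⟨hg, hg'⟩
    refine ⟨fun i j => ?_, by rw [dt_inv, map_inv₀, hg', inv_one]⟩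
    fin_cases i <;> fin_cases j
    · show Valued.v (g⁻¹ 0 0) ≤ 1
      rw [inv_00, map_mul, map_inv₀, hg', inv_one, one_mul]; exact hg _ _
    · show Valued.v (g⁻¹ 0 1) ≤ 1
      rw [inv_01, Valuation.map_neg, map_mul, map_inv₀, hg', inv_one, one_mul]; exact hg _ _
    · show Valued.v (g⁻¹ 1 0) ≤ 1
      rw [inv_10, Valuation.map_neg, map_mul, map_inv₀, hg', inv_one, one_mul]; exact hg _ _
    · show Valued.v (g⁻¹ 1 1) ≤ 1
      rw [inv_11, map_mul, map_inv₀, hg', inv_one, one_mul]; exact hg _ _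

theorem mem_maxK {g : GL (Fin 2) F} :
    g ∈ maxK F ↔ (∀ i j, Valued.v (g i j) ≤ 1) ∧ Valued.v (dt g) = 1 := Iff.rfl

/-- the Iwahori subgroup: lower left entry in the maximal ideal -/
def Iw (F : Type) [Field F] [Valued F ℤᵐ⁰] : Subgroup (GL (Fin 2) F) where
  carrier := {g | g ∈ maxK F ∧ Valued.v (g 1 0) < 1}
  mul_mem' := by
    rintro a b ⟨ha, ha'⟩ ⟨hb, hb'⟩
    refine ⟨mul_mem ha hb, ?_⟩
    rw [mul_ij]
    refine Valued.v.map_add_lt ?_ ?_
    · rw [map_mul]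
      exact mul_lt_one_of_nonneg_of_lt_one_left zero_le ha' (hb.1 _ _)
    · rw [map_mul]
      exact mul_lt_one_of_nonneg_of_lt_one_right (ha.1 _ _) zero_le hb'
  one_mem' := ⟨one_mem _, by simp⟩
  inv_mem' := by
    rintro g ⟨hg, hg'⟩
    refine ⟨inv_mem hg, ?_⟩
    rw [inv_10, Valuation.map_neg, map_mul, map_inv₀, hg.2, inv_one, one_mul]
    exact hg'

theorem mem_Iw {g : GL (Fin 2) F} : g ∈ Iw F ↔ g ∈ maxK F ∧ Valued.v (g 1 0) < 1 := Iff.rfl

theorem Iw_le : Iw F ≤ maxK F := fun _ h => h.1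

/-- the principal congruence subgroups -/
def Kn (F : Type) [Field F] [Valued F ℤᵐ⁰] (n : ℕ) : Subgroup (GL (Fin 2) F) where
  carrier := {g | g ∈ maxK F ∧ ∀ i j, Valued.v (g i j - (1 : GL (Fin 2) F) i j) ≤ exp (-(n : ℤ))}
  mul_mem' := by
    rintro a b ⟨ha, ha'⟩ ⟨hb, hb'⟩
    refine ⟨mul_mem ha hb, fun i j => ?_⟩
    have e : (a * b) i j - (1 : GL (Fin 2) F) i j =
        ((a i 0 - (1 : GL (Fin 2) F) i 0) * b 0 j + (a i 1 - (1 : GL (Fin 2) F) i 1) * b 1 j)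
          + (b i j - (1 : GL (Fin 2) F) i j) := by
      rw [mul_ij]
      have : b i j = (1 : GL (Fin 2) F) i 0 * b 0 j + (1 : GL (Fin 2) F) i 1 * b 1 j := by
        rw [← mul_ij, one_mul]
      linear_combination (-1 : F) * this
    rw [e]
    refine Valued.v.map_add_le (Valued.v.map_add_le ?_ ?_) (hb' i j) <;> rw [map_mul]
    · exact (mul_le_mul' (ha' _ _) (hb.1 _ _)).trans (by simp)
    · exact (mul_le_mul' (ha' _ _) (hb.1 _ _)).trans (by simp)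
  one_mem' := ⟨one_mem _, by simp⟩
  inv_mem' := by
    rintro g ⟨hg, hg'⟩
    have hgi := inv_mem hg
    refine ⟨hgi, fun i j => ?_⟩
    have e : g⁻¹ i j - (1 : GL (Fin 2) F) i j =
        -(g⁻¹ i 0 * (g 0 j - (1 : GL (Fin 2) F) 0 j) + g⁻¹ i 1 * (g 1 j - (1 : GL (Fin 2) F) 1 j)) := by
      have h1 : (1 : GL (Fin 2) F) i j = g⁻¹ i 0 * g 0 j + g⁻¹ i 1 * g 1 j := by
        rw [← mul_ij, inv_mul_cancel]
      have h2 : g⁻¹ i j = g⁻¹ i 0 * (1 : GL (Fin 2) F) 0 j + g⁻¹ i 1 * (1 : GL (Fin 2) F) 1 j := by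
        rw [← mul_ij, mul_one]
      rw [h1]
      nth_rewrite 1 [h2]
      ring
    rw [e, Valuation.map_neg]
    refine Valued.v.map_add_le ?_ ?_ <;> rw [map_mul]
    · exact (mul_le_mul' (hgi.1 _ _) (hg' _ _)).trans (by simp)
    · exact (mul_le_mul' (hgi.1 _ _) (hg' _ _)).trans (by simp)

theorem mem_Kn {n : ℕ} {g : GL (Fin 2) F} : g ∈ Kn F n ↔
    g ∈ maxK F ∧ ∀ i j, Valued.v (g i j - (1 : GL (Fin 2) F) i j) ≤ exp (-(n : ℤ)) := Iff.rfl

theorem Kn_le (n : ℕ) : Kn F n ≤ maxK F := fun _ h => h.1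

theorem Kn_anti {m n : ℕ} (h : m ≤ n) : Kn F n ≤ Kn F m := by
  rintro g ⟨hg, hg'⟩
  refine ⟨hg, fun i j => (hg' i j).trans ?_⟩
  rw [exp_le_exp]
  omega

theorem Kn_normal {n : ℕ} {k u : GL (Fin 2) F} (hk : k ∈ maxK F) (hu : u ∈ Kn F n) :
    k * u * k⁻¹ ∈ Kn F n := by
  have hki := inv_mem hk
  refine ⟨mul_mem (mul_mem hk hu.1) hki, fun i j => ?_⟩
  have e : (k * u * k⁻¹) i j - (1 : GL (Fin 2) F) i j =
      (k i 0 * (u 0 0 - (1 : GL (Fin 2) F) 0 0) + k i 1 * (u 1 0 - (1 : GL (Fin 2) F) 1 0)) * k⁻¹ 0 j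
      + (k i 0 * (u 0 1 - (1 : GL (Fin 2) F) 0 1) + k i 1 * (u 1 1 - (1 : GL (Fin 2) F) 1 1))
        * k⁻¹ 1 j := by
    have h1 : (1 : GL (Fin 2) F) i j = k i 0 * k⁻¹ 0 j + k i 1 * k⁻¹ 1 j := by
      rw [← mul_ij, mul_inv_cancel]
    rw [h1, mul_ij, mul_ij, mul_ij]
    simp
    ring
  rw [e]
  refine Valued.v.map_add_le ?_ ?_ <;> rw [map_mul]
  · refine (mul_le_mul' (Valued.v.map_add_le (g := exp (-(n : ℤ))) ?_ ?_) (hki.1 _ _)).trans (by simp)
    <;> rw [map_mul]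
    · exact (mul_le_mul' (hk.1 _ _) (hu.2 _ _)).trans (by simp)
    · exact (mul_le_mul' (hk.1 _ _) (hu.2 _ _)).trans (by simp)
  · refine (mul_le_mul' (Valued.v.map_add_le (g := exp (-(n : ℤ))) ?_ ?_) (hki.1 _ _)).trans (by simp)
    <;> rw [map_mul]
    · exact (mul_le_mul' (hk.1 _ _) (hu.2 _ _)).trans (by simp)
    · exact (mul_le_mul' (hk.1 _ _) (hu.2 _ _)).trans (by simp)

theorem Kn_normal' {n : ℕ} {k u : GL (Fin 2) F} (hk : k ∈ maxK F) (hu : u ∈ Kn F n) :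
    k⁻¹ * u * k ∈ Kn F n := by
  simpa using Kn_normal (inv_mem hk) hu

theorem ws_mem : (ws : GL (Fin 2) F) ∈ maxK F := by
  refine ⟨fun i j => ?_, by simp [ws]⟩
  fin_cases i <;> fin_cases j <;> simp [ws]

theorem lo_mem {t : F} (h : Valued.v t ≤ 1) : lo t ∈ maxK F := by
  refine ⟨fun i j => ?_, by simp [lo]⟩
  fin_cases i <;> fin_cases j <;> simp [lo, h]

theorem up_mem {t : F} (h : Valued.v t ≤ 1) : up t ∈ maxK F := by
  refine ⟨fun i j => ?_, by simp [up]⟩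
  fin_cases i <;> fin_cases j <;> simp [up, h]

theorem up_mem_Iw {t : F} (h : Valued.v t ≤ 1) : up t ∈ Iw F := ⟨up_mem h, by simp [up]⟩

theorem lo_mem_Iw {t : F} (h : Valued.v t < 1) : lo t ∈ Iw F := ⟨lo_mem h.le, by simpa [lo] using h⟩

theorem lo_mem_Kn {t : F} {n : ℕ} (h : Valued.v t ≤ exp (-(n : ℤ))) : lo t ∈ Kn F n := by
  have h1 : Valued.v t ≤ 1 := h.trans (by rw [← exp_zero, exp_le_exp]; omega)
  refine ⟨lo_mem h1, fun i j => ?_⟩
  have h0 : Valued.v (0 : F) ≤ exp (-(n : ℤ)) := by rw [map_zero]; exact zero_le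
  fin_cases i <;> fin_cases j
  · show Valued.v ((1 : F) - 1) ≤ _
    rwa [sub_self]
  · show Valued.v ((0 : F) - 0) ≤ _
    rwa [sub_self]
  · show Valued.v (t - 0) ≤ _
    rwa [sub_zero]
  · show Valued.v ((1 : F) - 1) ≤ _
    rwa [sub_self]

end Val

end Pool.Agent.W526.LL
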