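import Mathlib
import Pool.Agent.W526.LL.Loc

/-! Places, completions and adelic groups of `𝔽₂(T)`. -/

namespace Pool.Agent.W526.LL

open IsDedekindDomain WithZero Polynomial Topology
open scoped RestrictedProduct

section Top
variable {F : Type} [Field F] [Valued F ℤᵐ⁰]

theorem mem_nhds_of_ball {s : Set F} {n : ℤ} {a : F} (ha : Valued.v a = exp n)
    (h : {x | Valued.v x < exp n} ⊆ s) : s ∈ 𝓝 (0 : F) := by
  rw [Valued.mem_nhds_zero]
  have ha0 : (Valued.v.restrict a) ≠ 0 := by
    intro h0
    have : (Valued.v a) = 0 := by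
      rw [← Valuation.embedding_restrict, h0, map_zero]
    rw [ha] at this
    simp at this
  refine ⟨Units.mk0 _ ha0, fun x hx => h ?_⟩
  have hx' : Valued.v.restrict x < Valued.v.restrict a := hx
  rw [Valuation.restrict_lt_iff] at hx'
  rw [← ha]; exact hx'

theorem exists_ball_of_mem_nhds {s : Set F} (h : s ∈ 𝓝 (0 : F)) :
    ∃ n : ℕ, {x | Valued.v x ≤ exp (-(n : ℤ))} ⊆ s := by
  rw [Valued.mem_nhds_zero] at h
  obtain ⟨γ, hγ⟩ := h
  obtain ⟨m, hm⟩ : ∃ m : ℤ, MonoidWithZeroHom.ValueGroup₀.embedding γ.1 = exp m := by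
    have hne : MonoidWithZeroHom.ValueGroup₀.embedding γ.1 ≠ 0 := by
      simp
    exact ⟨log _, (exp_log hne).symm⟩
  refine ⟨(1 - m).toNat, fun x hx => hγ ?_⟩
  show Valued.v.restrict x < γ.1
  rw [Valuation.restrict_lt_iff_lt_embedding, hm]
  refine lt_of_le_of_lt hx ?_
  rw [exp_lt_exp]
  have := Int.self_le_toNat (1 - m)
  omega

/-- Data at a local field: a uniformiser and a set of representatives of the residue field. -/
structure LD (F : Type) [Field F] [Valued F ℤᵐ⁰] where
  /-- the uniformiser -/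
  ϖ : F
  hϖ : Valued.v ϖ = exp (-1 : ℤ)
  /-- representatives of the residue field -/
  T : Finset F
  hT0 : (0 : F) ∈ T
  hT : ∀ t ∈ T, Valued.v t ≤ 1
  hrep : ∀ x : F, Valued.v x ≤ 1 → ∃ t ∈ T, Valued.v (x - t) < 1
  huniq : ∀ t ∈ T, ∀ t' ∈ T, Valued.v (t - t') < 1 → t = t'

theorem LD.ne (D : LD F) : D.ϖ ≠ 0 := by
  intro h
  have := D.hϖ
  rw [h, map_zero] at this
  exact exp_ne_zero this.symm

end Top

/-- The global field `K = 𝔽₂(T)`. -/
abbrev KK : Type := RatFunc (ZMod 2)

noncomputable instance decKK : DecidableEq KK := Classical.decEq _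

/-- The places of `K`: `none` is the place at infinity, `some v` the place of a maximal ideal `v`
of `𝔽₂[T]`. -/
abbrev Pl : Type := Option (HeightOneSpectrum (ZMod 2)[X])

noncomputable instance decPl : DecidableEq Pl := Classical.decEq _

/-- The completion of `K` at a place. -/
def Kv : Pl → Type
  | none => RatFunc.CompletionAtInfty (ZMod 2)
  | some v => v.adicCompletion KK

noncomputable instance instFieldKv : (p : Pl) → Field (Kv p)
  | none => (inferInstance : Field (RatFunc.CompletionAtInfty (ZMod 2)))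
  | some v => (inferInstance : Field (v.adicCompletion KK))

noncomputable instance instValuedKv : (p : Pl) → Valued (Kv p) ℤᵐ⁰
  | none => (inferInstance : Valued (RatFunc.CompletionAtInfty (ZMod 2)) ℤᵐ⁰)
  | some v => (inferInstance : Valued (v.adicCompletion KK) ℤᵐ⁰)

noncomputable instance instAlgebraKv : (p : Pl) → Algebra KK (Kv p)
  | none => (inferInstance : Algebra KK (RatFunc.CompletionAtInfty (ZMod 2)))
  | some v => (inferInstance : Algebra KK (v.adicCompletion KK))

noncomputable instance decKv (p : Pl) : DecidableEq (Kv p) := Classical.decEq _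

/-- The embedding of `K` into its completion at `p`. -/
noncomputable abbrev cmap (p : Pl) : KK →+* Kv p := algebraMap KK (Kv p)

theorem v_inf (a : KK) : Valued.v (cmap none a) = RatFunc.inftyValuationDef (ZMod 2) a := by
  let _ := RatFunc.inftyValued (ZMod 2)
  exact Valued.extensionValuation_apply_coe (K := KK) a

theorem v_fin (v : HeightOneSpectrum (ZMod 2)[X]) (a : KK) :
    Valued.v (cmap (some v) a) = v.valuation KK a :=
  HeightOneSpectrum.valuedAdicCompletion_eq_valuation' v a

theorem dense_inf : DenseRange (cmap none) := by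
  let _ := RatFunc.inftyValued (ZMod 2)
  exact UniformSpace.Completion.denseRange_coe (α := KK)

theorem dense_fin (v : HeightOneSpectrum (ZMod 2)[X]) : DenseRange (cmap (some v)) :=
  HeightOneSpectrum.denseRange_algebraMap KK v

theorem dense_cmap : (p : Pl) → DenseRange (cmap p)
  | none => dense_inf
  | some v => dense_fin v

theorem exists_unif_K : (p : Pl) → ∃ a : KK, Valued.v (cmap p a) = exp (-1 : ℤ)
  | none => ⟨RatFunc.X⁻¹, by
      rw [v_inf, ← RatFunc.inftyValuation_apply, map_inv₀, RatFunc.inftyValuation.X, exp_neg]⟩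
  | some v => by
      obtain ⟨a, ha⟩ := v.valuation_exists_uniformizer KK
      exact ⟨a, by rw [v_fin]; exact ha⟩

theorem exists_v_eq (p : Pl) (n : ℤ) : ∃ a : KK, Valued.v (cmap p a) = exp n := by
  obtain ⟨a, ha⟩ := exists_unif_K p
  refine ⟨a ^ (-n), ?_⟩
  rw [map_zpow₀, map_zpow₀, ha, ← exp_zsmul]
  simp

/-- Every element of a completion is approximated by elements of `K`. -/
theorem approx (p : Pl) (x : Kv p) (n : ℤ) : ∃ a : KK, Valued.v (x - cmap p a) < exp n := by
  obtain ⟨b, hb⟩ := exists_v_eq p n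
  have h0 : {y : Kv p | Valued.v y < exp n} ∈ 𝓝 (0 : Kv p) := mem_nhds_of_ball hb (subset_refl _)
  have h1 : {y : Kv p | Valued.v (x - y) < exp n} ∈ 𝓝 x := by
    have hc : Filter.Tendsto (fun y : Kv p => x - y) (𝓝 x) (𝓝 0) := by
      have : Filter.Tendsto (fun y : Kv p => x - y) (𝓝 x) (𝓝 (x - x)) :=
        (continuous_const.sub continuous_id).tendsto x
      rwa [sub_self] at this
    exact hc h0
  obtain ⟨a, ha⟩ := (dense_cmap p).mem_nhds h1
  exact ⟨a, ha⟩

/-- Integral elements at infinity are congruent to `0` or `1`. -/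
theorem res_inf (x : Kv none) (hx : Valued.v x ≤ 1) :
    Valued.v x < 1 ∨ Valued.v (x - 1) < 1 := by
  obtain ⟨a, ha⟩ := approx none x 0
  rw [exp_zero] at ha
  have h1 : Valued.v (cmap none a) ≤ 1 := by
    have e : cmap none a = x - (x - cmap none a) := by ring
    rw [e]
    exact (Valuation.map_sub _ _ _).trans (max_le hx ha.le)
  have h2 : Valued.v (cmap none a) < 1 ∨ Valued.v (cmap none (a - 1)) < 1 := by
    rw [v_inf] at h1
    rw [v_inf, v_inf]
    rcases eq_or_ne a 0 with rfl | ha0
    · left; rw [RatFunc.InftyValuation.map_zero']; exact zero_lt_one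
    rcases eq_or_ne (a - 1) 0 with h0 | ha1
    · right; rw [h0, RatFunc.InftyValuation.map_zero']; exact zero_lt_one
    rw [RatFunc.inftyValuation_of_nonzero _ ha0] at h1 ⊢
    rw [RatFunc.inftyValuation_of_nonzero _ ha1]
    rw [← exp_zero, exp_le_exp] at h1
    rw [← exp_zero, exp_lt_exp, exp_lt_exp]
    rcases lt_or_eq_of_le h1 with h | h
    · exact Or.inl h
    right
    -- `a = p / q` with `deg p = deg q`, leading coefficients are both `1`
    have hq0 : a.denom ≠ 0 := RatFunc.denom_ne_zero a
    have hp0 : a.num ≠ 0 := by rwa [ne_eq, RatFunc.num_eq_zero_iff]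
    have hdeg : a.num.natDegree = a.denom.natDegree := by
      unfold RatFunc.intDegree at h; omega
    have hdd : a.num.degree = a.denom.degree := by
      rw [Polynomial.degree_eq_natDegree hp0, Polynomial.degree_eq_natDegree hq0, hdeg]
    have hl : ∀ P : (ZMod 2)[X], P ≠ 0 → P.leadingCoeff = 1 := by
      intro P hP
      have h2 : ∀ z : ZMod 2, z ≠ 0 → z = 1 := by decide
      exact h2 _ (Polynomial.leadingCoeff_ne_zero.mpr hP)
    have hlt : (a.num - a.denom).degree < a.num.degree :=
      Polynomial.degree_sub_lt_left hdd hp0 (by rw [hl _ hp0, hl _ hq0])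
    have e : a - 1 = algebraMap (ZMod 2)[X] KK (a.num - a.denom) /
        algebraMap (ZMod 2)[X] KK a.denom := by
      rw [map_sub, sub_div, div_self (by
        intro hh; exact hq0 ((RatFunc.algebraMap_injective (ZMod 2)) (by rw [hh, map_zero])))]
      rw [RatFunc.num_div_denom]
    have hne : a.num - a.denom ≠ 0 := by
      intro hh
      apply ha1
      rw [e, hh, map_zero, zero_div]
    rw [e, RatFunc.intDegree_div (by
        intro hh; exact hne ((RatFunc.algebraMap_injective (ZMod 2)) (by rw [hh, map_zero])))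
      (by intro hh; exact hq0 ((RatFunc.algebraMap_injective (ZMod 2)) (by rw [hh, map_zero]))),
      RatFunc.intDegree_polynomial, RatFunc.intDegree_polynomial]
    rw [Polynomial.degree_eq_natDegree hne, Polynomial.degree_eq_natDegree hp0,
      Nat.cast_lt] at hlt
    omega
  rcases h2 with h2 | h2
  · left
    have e : x = (x - cmap none a) + cmap none a := by ring
    rw [e]; exact (Valuation.map_add _ _ _).trans_lt (max_lt ha h2)
  · right
    have e : x - 1 = (x - cmap none a) + cmap none (a - 1) := by rw [map_sub, map_one]; ring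
    rw [e]; exact (Valuation.map_add _ _ _).trans_lt (max_lt ha h2)

/-- The local data at infinity: uniformiser `1/T`, representatives `0, 1`. -/
noncomputable def Dinf : LD (Kv none) where
  ϖ := cmap none RatFunc.X⁻¹
  hϖ := by
    rw [v_inf, ← RatFunc.inftyValuation_apply, map_inv₀, RatFunc.inftyValuation.X, exp_neg]
  T := {0, 1}
  hT0 := by simp
  hT := by
    intro t ht
    simp only [Finset.mem_insert, Finset.mem_singleton] at ht
    rcases ht with rfl | rfl <;> simp
  hrep := by
    intro x hx
    rcases res_inf x hx with h | h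
    · exact ⟨0, by simp, by simpa using h⟩
    · exact ⟨1, by simp, h⟩
  huniq := by
    intro t ht t' ht' h
    simp only [Finset.mem_insert, Finset.mem_singleton] at ht ht'
    rcases ht with rfl | rfl <;> rcases ht' with rfl | rfl <;> simp_all [Valuation.map_neg]

theorem Dinf_T : Dinf.T = {0, 1} := rfl

theorem Dinf_ϖ : Dinf.ϖ = cmap none RatFunc.X⁻¹ := rfl

/-! ### Adelic groups -/

/-- The image of a matrix `γ ∈ GL₂(K)` in `GL₂(K_p)`. -/
noncomputable def locK (p : Pl) : GL (Fin 2) KK →* GL (Fin 2) (Kv p) :=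
  Matrix.GeneralLinearGroup.map (algebraMap KK (Kv p))

/-- `GL₂(𝔸)`, the restricted product of the groups `GL₂(K_p)` with respect to the `GL₂(O_p)`. -/
abbrev GA : Type := Πʳ p : Pl, [GL (Fin 2) (Kv p), (maxK (Kv p) : Set (GL (Fin 2) (Kv p)))]

/-- The ring of adeles. -/
abbrev AA : Type := Πʳ p : Pl, [Kv p, (Valued.integer (Kv p) : Set (Kv p))]

theorem mul_apply (g h : GA) (p : Pl) : (g * h) p = g p * h p := rfl

theorem one_apply (p : Pl) : (1 : GA) p = 1 := rfl

theorem inv_apply (g : GA) (p : Pl) : (g⁻¹) p = (g p)⁻¹ := rfl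

theorem ext_GA {g h : GA} (H : ∀ p, g p = h p) : g = h := RestrictedProduct.ext _ _ H

/-- The embedding of `GL₂(K_p)` in `GL₂(𝔸)`. -/
noncomputable def inj (p : Pl) : GL (Fin 2) (Kv p) →* GA where
  toFun g := ⟨Pi.mulSingle (M := fun q => GL (Fin 2) (Kv q)) p g, by
    refine (Filter.mem_cofinite.mpr ((Set.finite_singleton p).subset ?_))
    intro q hq
    by_contra hqp
    apply hq
    show Pi.mulSingle (M := fun q => GL (Fin 2) (Kv q)) p g q ∈ (maxK (Kv q) : Set (GL (Fin 2) (Kv q)))
    rw [Pi.mulSingle_eq_of_ne hqp]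
    exact one_mem _⟩
  map_one' := by
    refine ext_GA fun q => ?_
    show Pi.mulSingle (M := fun q => GL (Fin 2) (Kv q)) p (1 : GL (Fin 2) (Kv p)) q = 1
    rw [Pi.mulSingle_one]; rfl
  map_mul' a b := by
    refine ext_GA fun q => ?_
    show Pi.mulSingle (M := fun q => GL (Fin 2) (Kv q)) p (a * b) q = Pi.mulSingle (M := fun q => GL (Fin 2) (Kv q)) p a q * Pi.mulSingle (M := fun q => GL (Fin 2) (Kv q)) p b q
    rw [Pi.mulSingle_mul]; rfl

theorem inj_same (p : Pl) (g : GL (Fin 2) (Kv p)) : inj p g p = g :=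
  Pi.mulSingle_eq_same (M := fun q => GL (Fin 2) (Kv q)) p g

theorem inj_ne {p q : Pl} (h : q ≠ p) (g : GL (Fin 2) (Kv p)) : inj p g q = 1 :=
  Pi.mulSingle_eq_of_ne (M := fun q => GL (Fin 2) (Kv q)) h g

/-- The unipotent subgroup: `x ↦ (1 x; 0 1)`. -/
noncomputable def uni (x : AA) : GA :=
  ⟨fun p => up (x p), x.2.mono fun _ hp => up_mem hp⟩

theorem uni_apply (x : AA) (p : Pl) : uni x p = up (x p) := rfl

/-- An element of `GL₂(𝔸)` is the product of its component at `p` and of an element commuting
with `GL₂(K_p)`. -/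
theorem exists_decomp (p : Pl) (g : GA) : ∃ c : GA, c p = 1 ∧
    (∀ h, c * inj p h = inj p h * c) ∧ g = c * inj p (g p) := by
  refine ⟨g * inj p ((g p)⁻¹), ?_, ?_, ?_⟩
  · rw [mul_apply, inj_same, mul_inv_cancel]
  · intro h
    refine ext_GA fun q => ?_
    rcases eq_or_ne q p with rfl | hq
    · simp only [mul_apply, inj_same]; group
    · simp only [mul_apply, inj_ne hq]; simp
  · rw [mul_assoc, ← map_mul]; simp

end Pool.Agent.W526.LL
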