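import Mathlib
import Pool.Agent.W526.LL.Defs

/-! Automorphic representations of `GL₂` over `K = 𝔽₂(T)`: definitions. -/

namespace Pool.Agent.W526.LL

open IsDedekindDomain WithZero Polynomial Topology

/-! ### Smooth irreducible representations -/

/-- Right translation: `(R(h) f)(g) = f(g h)`. -/
def rt (G : Type) [Group G] : Representation ℂ G (G → ℂ) where
  toFun h :=
    { toFun := fun f g => f (g * h)
      map_add' := fun _ _ => rfl
      map_smul' := fun _ _ => rfl }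
  map_one' := by
    ext f g
    simp
  map_mul' a b := by
    ext f g
    simp [mul_assoc]

theorem rt_apply {G : Type} [Group G] (h : G) (f : G → ℂ) (g : G) : rt G h f g = f (g * h) := rfl

/-- A (nonzero) representation is irreducible. -/
def IsIrr {G V : Type} [Group G] [AddCommGroup V] [Module ℂ V] (ρ : Representation ℂ G V) : Prop :=
  (∃ v : V, v ≠ 0) ∧ ∀ P : Submodule ℂ V, (∀ g, ∀ v ∈ P, ρ g v ∈ P) → P = ⊥ ∨ P = ⊤

/-- Smooth irreducible complex representations of a topological group. -/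
structure SmIrr (G : Type) [Group G] [TopologicalSpace G] where
  /-- the space -/
  V : Type
  [acg : AddCommGroup V]
  [mod : Module ℂ V]
  /-- the action -/
  ρ : Representation ℂ G V
  smooth : ∀ v : V, ∃ U : Subgroup G, IsOpen (U : Set G) ∧ ∀ u ∈ U, ρ u v = v
  irr : IsIrr ρ

attribute [instance] SmIrr.acg SmIrr.mod

/-- Isomorphism of representations. -/
def SmIrr.Iso {G : Type} [Group G] [TopologicalSpace G] (τ σ : SmIrr G) : Prop :=
  ∃ e : τ.V ≃ₗ[ℂ] σ.V, ∀ g v, e (τ.ρ g v) = σ.ρ g (e v)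

/-- Isomorphism as an equivalence relation. -/
instance SmIrr.setoid (G : Type) [Group G] [TopologicalSpace G] : Setoid (SmIrr G) where
  r := SmIrr.Iso
  iseqv :=
    { refl := fun τ => ⟨LinearEquiv.refl ℂ τ.V, fun _ _ => rfl⟩
      symm := by
        rintro τ σ ⟨e, he⟩
        refine ⟨e.symm, fun g v => ?_⟩
        rw [LinearEquiv.symm_apply_eq, he, LinearEquiv.apply_symm_apply]
      trans := by
        rintro τ σ π ⟨e, he⟩ ⟨f, hf⟩
        refine ⟨e.trans f, fun g v => ?_⟩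
        simp [he, hf] }

/-- `Irr(G)`: the set of isomorphism classes of smooth irreducible representations. -/
def Irr (G : Type) [Group G] [TopologicalSpace G] : Type 1 := Quotient (SmIrr.setoid G)

/-- The class of a smooth irreducible representation. -/
def SmIrr.cls {G : Type} [Group G] [TopologicalSpace G] (τ : SmIrr G) : Irr G := Quotient.mk _ τ

/-! ### Automorphic forms and representations -/

/-- Left invariance under `GL₂(K)` (embedded diagonally). -/
def LeftInv (f : GA → ℂ) : Prop :=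
  ∀ (γ : GL (Fin 2) KK) (g g' : GA), (∀ p, g' p = locK p γ * g p) → f g' = f g

/-- Right invariance under some open subgroup. -/
def RightSm (f : GA → ℂ) : Prop :=
  ∃ U : Subgroup GA, IsOpen (U : Set GA) ∧ ∀ u ∈ U, ∀ g, f (g * u) = f g

/-- The span of the right translates of `f` under `GL₂(K_p)`. -/
def locSpan (p : Pl) (f : GA → ℂ) : Submodule ℂ (GA → ℂ) :=
  Submodule.span ℂ {F | ∃ h : GL (Fin 2) (Kv p), F = rt GA (inj p h) f}

/-- The vectors of a subspace `W` of functions which are fixed by a subgroup `U` of `GL₂(K_p)`. -/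
def fixedIn (p : Pl) (U : Subgroup (GL (Fin 2) (Kv p))) (W : Submodule ℂ (GA → ℂ)) :
    Submodule ℂ (GA → ℂ) where
  carrier := {F | F ∈ W ∧ ∀ u ∈ U, rt GA (inj p u) F = F}
  add_mem' := by
    rintro a b ⟨ha, ha'⟩ ⟨hb, hb'⟩
    exact ⟨W.add_mem ha hb, fun u hu => by rw [map_add, ha' u hu, hb' u hu]⟩
  zero_mem' := ⟨W.zero_mem, fun u _ => map_zero _⟩
  smul_mem' := by
    rintro c a ⟨ha, ha'⟩
    exact ⟨W.smul_mem c ha, fun u hu => by rw [map_smul, ha' u hu]⟩

/-- Automorphic forms on `GL₂(𝔸)` (Borel–Jacquet, function field case): left invariant under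
`GL₂(K)`, right invariant under an open subgroup, and for some place `p` the right translates
under `GL₂(K_p)` span an admissible representation of `GL₂(K_p)`. -/
def IsAutForm (f : GA → ℂ) : Prop :=
  LeftInv f ∧ RightSm f ∧ ∃ p : Pl, ∀ U : Subgroup (GL (Fin 2) (Kv p)),
    IsOpen (U : Set (GL (Fin 2) (Kv p))) → FiniteDimensional ℂ (fixedIn p U (locSpan p f))

/-- The diagonally embedded field `K` in the adeles. -/
def diagK : AddSubgroup AA where
  carrier := {x | ∃ a : KK, ∀ p, x p = cmap p a}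
  add_mem' := by
    rintro x y ⟨a, ha⟩ ⟨b, hb⟩
    exact ⟨a + b, fun p => by rw [map_add, ← ha, ← hb]; rfl⟩
  zero_mem' := ⟨0, fun p => by rw [map_zero]; rfl⟩
  neg_mem' := by
    rintro x ⟨a, ha⟩
    exact ⟨-a, fun p => by rw [map_neg, ← ha]; rfl⟩

/-- Cuspidality: the integral over `K \ 𝔸` of `x ↦ f(n(x) g)` vanishes for every `g`. The integrand
is invariant under some open subgroup `Ω` of `𝔸`, and the integral is (up to normalisation) the
sum over the finite group `𝔸 / (K + Ω)`. -/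
def IsCuspidal (f : GA → ℂ) : Prop :=
  ∀ (g : GA) (Ω : AddSubgroup AA), IsOpen (Ω : Set AA) →
    (∀ (x ω : AA), ω ∈ Ω → f (uni (x + ω) * g) = f (uni x * g)) →
    ∑ᶠ c : AA ⧸ (diagK ⊔ Ω), f (uni (Quotient.out c) * g) = 0

section Rep

variable {V : Type} [AddCommGroup V] [Module ℂ V]

/-- An irreducible representation of `GL₂(𝔸)` which is a quotient of an invariant space of
functions with the property `Q`. -/
def IsSubquot (Q : (GA → ℂ) → Prop) (ρ : Representation ℂ GA V) : Prop :=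
  IsIrr ρ ∧ ∃ W : Submodule ℂ (GA → ℂ), (∀ f ∈ W, Q f) ∧
    ∃ hW : ∀ g, ∀ f ∈ W, rt GA g f ∈ W,
    ∃ π : W →ₗ[ℂ] V, Function.Surjective π ∧
      ∀ (g : GA) (f : W), π ⟨rt GA g f, hW g f f.2⟩ = ρ g (π f)

/-- Automorphic representations: irreducible subquotients of the space of automorphic forms. -/
def IsAutRep (ρ : Representation ℂ GA V) : Prop := IsSubquot IsAutForm ρ

/-- Cuspidal automorphic representations. -/
def IsCuspRep (ρ : Representation ℂ GA V) : Prop :=
  IsSubquot (fun f => IsAutForm f ∧ IsCuspidal f) ρ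

/-- `τ` is the local component at `p` of the irreducible representation `ρ`: the restriction of
`ρ` to `GL₂(K_p)` is a sum of copies of `τ`. -/
def IsComp (ρ : Representation ℂ GA V) (p : Pl) (τ : SmIrr (GL (Fin 2) (Kv p))) : Prop :=
  Submodule.span ℂ {w : V | ∃ A : τ.V →ₗ[ℂ] V,
    (∀ g v, A (τ.ρ g v) = ρ (inj p g) (A v)) ∧ ∃ v, w = A v} = ⊤

end Rep

/-- `τ` is unramified: it has a nonzero vector fixed by `GL₂(O_p)`. -/
def Unr {p : Pl} (τ : SmIrr (GL (Fin 2) (Kv p))) : Prop :=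
  ∃ v : τ.V, v ≠ 0 ∧ ∀ k ∈ maxK (Kv p), τ.ρ k v = v

/-! ### Isobaric representations of `GL₂` -/

/-- The number of elements of the residue field at `p`. -/
noncomputable def qn : Pl → ℕ
  | none => 2
  | some v => Nat.card ((ZMod 2)[X] ⧸ v.asIdeal)

/-- The normalised absolute value at `p`, on units. -/
noncomputable def nrm (p : Pl) (x : (Kv p)ˣ) : ℝ :=
  (qn p : ℝ) ^ (WithZero.log (Valued.v (x : Kv p)))

/-- Quasi-characters of the idele class group `𝔸ˣ / Kˣ`, given by their local components: the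
local components are continuous, almost all of them are unramified, and the product is
trivial on `Kˣ`. -/
structure HeckeChar where
  /-- local components -/
  χ : ∀ p : Pl, (Kv p)ˣ →* ℂˣ
  cont : ∀ p, ∃ U : Subgroup (Kv p)ˣ, IsOpen (U : Set (Kv p)ˣ) ∧ ∀ u ∈ U, χ p u = 1
  unr : ∀ᶠ p in Filter.cofinite, ∀ u : (Kv p)ˣ, Valued.v (u : Kv p) = 1 → χ p u = 1
  glob : ∀ a : KKˣ, ∏ᶠ p, χ p (Units.map (algebraMap KK (Kv p)).toMonoidHom a) = 1

/-- The upper triangular matrix `(a b; 0 d)`. -/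
noncomputable def bor {F : Type} [Field F] (a d : Fˣ) (b : F) : GL (Fin 2) F :=
  gl2 a b 0 d (by simp)

/-- Functions in the normalised principal series `Ind(χ₁, χ₂)`. -/
def InPS (p : Pl) (χ₁ χ₂ : (Kv p)ˣ →* ℂˣ) (φ : GL (Fin 2) (Kv p) → ℂ) : Prop :=
  (∃ U : Subgroup (GL (Fin 2) (Kv p)), IsOpen (U : Set (GL (Fin 2) (Kv p))) ∧
    ∀ u ∈ U, ∀ g, φ (g * u) = φ g) ∧
  ∀ (a d : (Kv p)ˣ) (b : Kv p) (g : GL (Fin 2) (Kv p)),
    φ (bor a d b * g) = (χ₁ a : ℂ) * (χ₂ d : ℂ) * ((nrm p (a / d)) ^ (1 / 2 : ℝ) : ℝ) * φ g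

/-- `τ` is a subrepresentation of the principal series `Ind(χ₁, χ₂)`. -/
def EmbPS (p : Pl) (χ₁ χ₂ : (Kv p)ˣ →* ℂˣ) (τ : SmIrr (GL (Fin 2) (Kv p))) : Prop :=
  ∃ j : τ.V →ₗ[ℂ] (GL (Fin 2) (Kv p) → ℂ), Function.Injective j ∧
    (∀ v, InPS p χ₁ χ₂ (j v)) ∧ ∀ g v, j (τ.ρ g v) = rt _ g (j v)

/-- Isobaric automorphic representations of `GL₂(𝔸)`: cuspidal ones, and the isobaric sums
`χ₁ ⊞ χ₂` of two quasi-characters of the idele class group, numbered so that
`|χ₁| = |χ₂| |·|ˢ` with `s ≥ 0`; the local component at `p` of the latter is the Langlands quotient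
of `Ind(χ₁, χ₂)`, that is the irreducible subrepresentation of `Ind(χ₂, χ₁)`. -/
def IsIsobaric {V : Type} [AddCommGroup V] [Module ℂ V] (ρ : Representation ℂ GA V) : Prop :=
  IsCuspRep ρ ∨ (IsAutRep ρ ∧ ∃ (χ₁ χ₂ : HeckeChar) (s : ℝ), 0 ≤ s ∧
    (∀ p (x : (Kv p)ˣ), ‖(χ₁.χ p x : ℂ)‖ = ‖(χ₂.χ p x : ℂ)‖ * (nrm p x) ^ s) ∧
    ∀ p, ∃ τ : SmIrr (GL (Fin 2) (Kv p)), IsComp ρ p τ ∧ EmbPS p (χ₂.χ p) (χ₁.χ p) τ)

/-- `σ` is a global lifting of `π` for the standard representation of the dual group `GL₂(ℂ)`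
(for which the unramified local lifting is the identity). -/
def IsLift {V V' : Type} [AddCommGroup V] [Module ℂ V] [AddCommGroup V'] [Module ℂ V']
    (π : Representation ℂ GA V) (σ : Representation ℂ GA V') : Prop :=
  IsIsobaric σ ∧ ∀ (p : Pl) (τ : SmIrr (GL (Fin 2) (Kv p))), IsComp π p τ → Unr τ → IsComp σ p τ

end Pool.Agent.W526.LL
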