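import Mathlib
import Pool.Agent.W526.LL.Auto
import Pool.Agent.W526.LL.Avg

/-! Exact statements of the parts of the proof (MP_5ae62c_nt). -/

namespace Pool.Agent.W526.LL

open IsDedekindDomain WithZero Polynomial Topology

/-! ### Local part -/

section Local

variable {F : Type} [Field F] [Valued F ℤᵐ⁰]

/-- `α = diag(1, ϖ)` -/
noncomputable def LD.al (D : LD F) : GL (Fin 2) F := dg D.ϖ D.ne
/-- the central element `diag(ϖ, ϖ)` -/
noncomputable def LD.z (D : LD F) : GL (Fin 2) F := sc D.ϖ D.ne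
/-- `w = α s` -/
noncomputable def LD.w (D : LD F) : GL (Fin 2) F := D.al * ws

/-- Steinberg vectors -/
structure IsSt {V : Type} [AddCommGroup V] [Module ℂ V] (D : LD F)
    (ρ : Representation ℂ (GL (Fin 2) F) V) (y : V) : Prop where
  iw : ∀ k ∈ Iw F, ρ k y = y
  w : ρ D.w y = -y
  har : ∑ t ∈ D.T, ρ (lo t) y + ρ ws y = 0

end Local

/-- LL-DEC: Bruhat-Iwahori decomposition. -/
def S_dec : Prop := ∀ (F : Type) [Field F] [Valued F ℤᵐ⁰] (D : LD F) (g : GL (Fin 2) F),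
  ∃ (j : ℤ) (k : GL (Fin 2) F) (m : ℕ) (i : GL (Fin 2) F), k ∈ maxK F ∧ i ∈ Iw F ∧
    (g = D.z ^ j * k * D.al ^ m * i ∨ g = D.z ^ j * k * D.al ^ m * D.w * i)

/-- LL-QUO: finite quotients. -/
def S_quo : Prop := ∀ (F : Type) [Field F] [Valued F ℤᵐ⁰], LD F →
  ∀ (n : ℕ) (H : Subgroup (GL (Fin 2) F)), H ≤ maxK F → Finite (H ⧸ (Kn F n).subgroupOf H)

/-- LL-TOP: open subgroups. -/
def S_open : Prop := ∀ (F : Type) [Field F] [Valued F ℤᵐ⁰] (a : F), Valued.v a = exp (-1 : ℤ) →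
  (∀ n, IsOpen (Kn F n : Set (GL (Fin 2) F))) ∧ IsOpen (Iw F : Set (GL (Fin 2) F)) ∧
  IsOpen (maxK F : Set (GL (Fin 2) F)) ∧
  ∀ U : Subgroup (GL (Fin 2) F), IsOpen (U : Set (GL (Fin 2) F)) → ∃ n, Kn F n ≤ U

/-- The span of the vectors `A (ρ g y)`, `A ∈ S`. -/
def bigSpan {G V : Type} [Group G] [AddCommGroup V] [Module ℂ V] (ρ : Representation ℂ G V)
    (S : Set (V →ₗ[ℂ] V)) (y : V) : Submodule ℂ V :=
  Submodule.span ℂ {v | ∃ A ∈ S, ∃ g, v = A (ρ g y)}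

/-- LL-C: the four facts on Steinberg vectors. -/
def S_C : Prop := ∀ (F : Type) [Field F] [Valued F ℤᵐ⁰] (D : LD F)
  (V : Type) [AddCommGroup V] [Module ℂ V] (ρ : Representation ℂ (GL (Fin 2) F) V) (y : V),
  IsSt D ρ y → ∀ S : Set (V →ₗ[ℂ] V), (∀ A ∈ S, ∀ g v, A (ρ g v) = ρ g (A v)) →
    (∀ x ∈ bigSpan ρ S y, (∀ k ∈ maxK F, ρ k x = x) → x = 0) ∧
    (∀ x ∈ bigSpan ρ S y, (∀ k ∈ Iw F, ρ k x = x) →
      x ∈ Submodule.span ℂ {v | ∃ A ∈ S, v = A y}) ∧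
    (S.Finite → ∀ n : ℕ, ∃ P : Submodule ℂ V, FiniteDimensional ℂ P ∧
      ∀ x ∈ bigSpan ρ S y, (∀ k ∈ Kn F n, ρ k x = x) → x ∈ P) ∧
    (∀ x ∈ bigSpan ρ S y, ∃ n : ℕ, ∀ k ∈ Kn F n, ρ k x = x)

/-- LL-ISO: two irreducible representations with Steinberg vectors are isomorphic. -/
def S_iso : Prop := ∀ (F : Type) [Field F] [Valued F ℤᵐ⁰] (D : LD F)
  (τ σ : SmIrr (GL (Fin 2) F)) (y : τ.V) (y' : σ.V), y ≠ 0 → y' ≠ 0 → IsSt D τ.ρ y →
    IsSt D σ.ρ y' → SmIrr.Iso τ σ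

/-- LL-COMP: local component of a representation with a Steinberg vector at `p`. -/
def S_comp : Prop := ∀ (p : Pl) (D : LD (Kv p)) (V : Type) [AddCommGroup V] [Module ℂ V]
  (ρ : Representation ℂ GA V), IsIrr ρ → ∀ y : V, y ≠ 0 → IsSt D (ρ.comp (inj p)) y →
    (∃ τ : SmIrr (GL (Fin 2) (Kv p)), (∃ x : τ.V, x ≠ 0 ∧ IsSt D τ.ρ x) ∧ IsComp ρ p τ) ∧
    ∀ σ : SmIrr (GL (Fin 2) (Kv p)), IsComp ρ p σ → ¬ Unr σ

/-- LL-UNR: a trivial local component. -/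
def S_unr : Prop := ∀ (p : Pl) (D : LD (Kv p)) (V : Type) [AddCommGroup V] [Module ℂ V]
  (ρ : Representation ℂ GA V), IsIrr ρ → ∀ x : V, x ≠ 0 →
    (∀ k ∈ maxK (Kv p), ρ (inj p k) x = x) → ρ (inj p D.z) x = x →
    ∑ t ∈ D.T, ρ (inj p (lo t * D.al)) x + ρ (inj p (ws * D.al)) x
      = ((D.T.card : ℂ) + 1) • x →
    ∀ (g : GL (Fin 2) (Kv p)) (v : V), ρ (inj p g) v = v

/-- LL-ZORN: irreducible quotients. -/
def S_zorn : Prop := ∀ (G V : Type) [Group G] [AddCommGroup V] [Module ℂ V]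
  (ρ : Representation ℂ G V) (y : V) (N : Submodule ℂ V), (∀ g, ∀ v ∈ N, ρ g v ∈ N) → y ∉ N →
    Submodule.span ℂ {v | ∃ g, v = ρ g y} = ⊤ →
    ∃ (V' : Type) (_ : AddCommGroup V') (_ : Module ℂ V') (ρ' : Representation ℂ G V')
      (π : V →ₗ[ℂ] V'), Function.Surjective π ∧ (∀ g v, π (ρ g v) = ρ' g (π v)) ∧ IsIrr ρ' ∧
      π y ≠ 0 ∧ ∀ v ∈ N, π v = 0

/-! ### Places -/

/-- polynomials as elements of `K` -/
noncomputable abbrev ofPoly (P : (ZMod 2)[X]) : KK := algebraMap (ZMod 2)[X] KK P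

/-- LL-LD: local data at the finite places, with the right residue cardinality. -/
def S_ld : Prop := ∀ v : HeightOneSpectrum (ZMod 2)[X], ∃ D : LD (Kv (some v)),
  D.T.card = qn (some v) ∧ ∃ P : (ZMod 2)[X], D.ϖ = cmap (some v) (ofPoly P) ∧
    v.asIdeal = Ideal.span {P}

/-- LL-POL: the integrality facts. -/
def S_pol : Prop :=
  (∀ x : KK, (∀ v, Valued.v (cmap (some v) x) ≤ 1) → ∃ P : (ZMod 2)[X], x = ofPoly P) ∧
  (∀ n : ℤ, {x : KK | (∀ v, Valued.v (cmap (some v) x) ≤ 1) ∧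
    Valued.v (cmap none x) ≤ exp n}.Finite) ∧
  (∀ x : KK, (∀ v, Valued.v (cmap (some v) x) ≤ 1) → Valued.v (cmap none x) < 1 → x = 0) ∧
  (∀ x : KK, x ≠ 0 → {v : HeightOneSpectrum (ZMod 2)[X] | Valued.v (cmap (some v) x) ≠ 1}.Finite) ∧
  (∀ g : GA, ∃ d : (ZMod 2)[X], d ≠ 0 ∧ ∀ v i j,
    Valued.v (cmap (some v) (ofPoly d) * g (some v) i j) ≤ 1)

/-- LL-SA: strong approximation. -/
def S_sa : Prop :=
  (∀ (v : HeightOneSpectrum (ZMod 2)[X]) (y : Kv (some v)) (N : ℤ) (d : (ZMod 2)[X]), d ≠ 0 →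
    ∃ x : KK, Valued.v (cmap (some v) x - y) ≤ exp (-N) ∧
      ∀ w, w ≠ v → Valued.v (cmap (some w) x) ≤ Valued.v (cmap (some w) (ofPoly d))) ∧
  (∀ (y : Kv none) (d : (ZMod 2)[X]), d ≠ 0 →
    ∃ x : KK, (∀ w, Valued.v (cmap (some w) x) ≤ Valued.v (cmap (some w) (ofPoly d))) ∧
      Valued.v (cmap none x - y) < Valued.v (cmap none (ofPoly d)))

/-! ### Counting -/

/-- The coordinate `i` of `h x`, `x ∈ K²`. -/
noncomputable def vec {p : Pl} (h : GL (Fin 2) (Kv p)) (x : KK × KK) (i : Fin 2) : Kv p :=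
  h i 0 * cmap p x.1 + h i 1 * cmap p x.2

/-- `L_g = {x ∈ K² : g_p⁻¹ x ∈ O_p² for all p}` -/
noncomputable def Lg (g : GA) : AddSubgroup (KK × KK) where
  carrier := {x | ∀ p i, Valued.v (vec (g p)⁻¹ x i) ≤ 1}
  add_mem' := by
    intro x y hx hy p i
    have e : vec (g p)⁻¹ (x + y) i = vec (g p)⁻¹ x i + vec (g p)⁻¹ y i := by
      simp only [vec, Prod.fst_add, Prod.snd_add, map_add]; ring
    rw [e]
    exact Valued.v.map_add_le (hx p i) (hy p i)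
  zero_mem' := by intro p i; simp [vec]
  neg_mem' := by
    intro x hx p i
    have e : vec (g p)⁻¹ (-x) i = - vec (g p)⁻¹ x i := by
      simp only [vec, Prod.fst_neg, Prod.snd_neg, map_neg]; ring
    rw [e, Valuation.map_neg]
    exact hx p i

/-- the number of sections -/
noncomputable def HH (g : GA) : ℕ := Nat.card (Lg g)

/-- the central element `ϖ` at infinity -/
noncomputable def zi : GA := inj none Dinf.z

/-- The properties of the counting function used for the Eisenstein form. -/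
structure CountData (H : GA → ℕ) : Prop where
  left : ∀ (γ : GL (Fin 2) KK) (g g' : GA), (∀ p, g' p = locK p γ * g p) → H g' = H g
  right : ∀ g k : GA, (∀ p, k p ∈ maxK (Kv p)) → H (g * k) = H g
  pos : ∀ g, 0 < H g
  one : ∀ g, ∃ n₀ : ℕ, ∀ n : ℕ, n₀ ≤ n → H (g * zi ^ n) = 1
  sur : ∀ p (D : LD (Kv p)) (g : GA), ∃ n₀ : ℕ, ∀ n : ℕ, n₀ ≤ n →
    H (g * zi ^ (-(n : ℤ))) = D.T.card * H (g * inj p D.al * zi ^ (-(n : ℤ)))
  count : ∀ p (D : LD (Kv p)) (g : GA), ∑ t ∈ D.T, H (g * inj p (lo t * D.al)) +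
    H (g * inj p (ws * D.al)) = H g + D.T.card * H (g * inj p D.z)
  scal : ∀ v (D : LD (Kv (some v))), ∃ d : ℕ, ∀ g, H (g * inj (some v) D.z) = H (g * zi ^ d)

/-- LL-H1: formal properties and finiteness. -/
def S_H1 : Prop := (∀ g, Finite (Lg g)) ∧
  (∀ (γ : GL (Fin 2) KK) (g g' : GA), (∀ p, g' p = locK p γ * g p) → HH g' = HH g) ∧
  (∀ g k : GA, (∀ p, k p ∈ maxK (Kv p)) → HH (g * k) = HH g) ∧
  (∀ g, ∃ n₀ : ℕ, ∀ n : ℕ, n₀ ≤ n → HH (g * zi ^ n) = 1) ∧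
  (∀ v (D : LD (Kv (some v))), ∃ d : ℕ, ∀ g, HH (g * inj (some v) D.z) = HH (g * zi ^ d))

/-- LL-H2: counting lines. -/
def S_H2 : Prop := (∀ g, Finite (Lg g)) → ∀ p (D : LD (Kv p)) (g : GA),
  ∑ t ∈ D.T, HH (g * inj p (lo t * D.al)) +
    HH (g * inj p (ws * D.al)) = HH g + D.T.card * HH (g * inj p D.z)

/-- LL-H3: surjectivity. -/
def S_H3 : Prop := (∀ g, Finite (Lg g)) → ∀ p (D : LD (Kv p)) (g : GA), ∃ n₀ : ℕ,
  ∀ n : ℕ, n₀ ≤ n →
    HH (g * zi ^ (-(n : ℤ))) = D.T.card * HH (g * inj p D.al * zi ^ (-(n : ℤ)))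

/-- A form which is Steinberg at infinity modulo constants, with trivial Hecke eigenvalues. -/
structure EisForm (f : GA → ℂ) (C : ℂ) : Prop where
  hC : C ≠ 0
  left : LeftInv f
  right : ∀ g k : GA, (∀ p, k p ∈ maxK (Kv p)) → k none ∈ Iw (Kv none) → f (g * k) = f g
  w : ∀ g, f (g * inj none Dinf.w) = - f g - C
  har : ∀ g, ∑ t ∈ Dinf.T, f (g * inj none (lo t)) + f (g * inj none ws) = -C
  zv : ∀ v (D : LD (Kv (some v))) (g : GA), f (g * inj (some v) D.z) = f g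
  tv : ∀ v (D : LD (Kv (some v))) (g : GA), ∑ t ∈ D.T, f (g * inj (some v) (lo t * D.al)) +
    f (g * inj (some v) (ws * D.al)) = ((D.T.card : ℂ) + 1) * f g

/-- LL-EIS: from the counting function to the form. -/
def S_eis : Prop := ∀ H : GA → ℕ, CountData H → ∃ f C, EisForm f C

/-- A cusp form which is Steinberg at infinity. -/
structure CuspForm (f : GA → ℂ) : Prop where
  left : LeftInv f
  right : RightSm f
  iw : ∀ g, ∀ k ∈ Iw (Kv none), f (g * inj none k) = f g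
  w : ∀ g, f (g * inj none Dinf.w) = - f g
  har : ∀ g, ∑ t ∈ Dinf.T, f (g * inj none (lo t)) + f (g * inj none ws) = 0
  ne : ∃ g, f g ≠ 0
  anti : ∀ g : GA, ∃ x₀ : AA, ∀ x : AA, f (uni (x + x₀) * g) = - f (uni x * g)

/-- LL-CUSP -/
def S_cusp : Prop := ∃ f, CuspForm f

/-- the place `T = 0` -/
noncomputable def pl0 : HeightOneSpectrum (ZMod 2)[X] :=
  ⟨Ideal.span {X}, (Ideal.span_singleton_prime X_ne_zero).mpr prime_X, by
    rw [ne_eq, Ideal.span_singleton_eq_bot]; exact X_ne_zero⟩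

/-- the place `T = 1` -/
noncomputable def pl1 : HeightOneSpectrum (ZMod 2)[X] :=
  ⟨Ideal.span {X - C 1}, (Ideal.span_singleton_prime (X_sub_C_ne_zero 1)).mpr (prime_X_sub_C 1), by
    rw [ne_eq, Ideal.span_singleton_eq_bot]; exact X_sub_C_ne_zero 1⟩

/-- reduction of an integral element at a place with residue field `𝔽₂` -/
noncomputable def bit {p : Pl} (x : Kv p) : ZMod 2 := by
  classical exact if Valued.v x < 1 then 0 else 1

/-- reduction of a matrix -/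
noncomputable def red {p : Pl} (g : GL (Fin 2) (Kv p)) : Matrix (Fin 2) (Fin 2) (ZMod 2) :=
  fun i j => bit (g i j)

/-- the sign character of `GL₂(𝔽₂) = S₃` -/
def sg (M : Matrix (Fin 2) (Fin 2) (ZMod 2)) : ℤ :=
  if M = 1 ∨ M 0 0 + M 1 1 = 1 then 1 else -1

/-- the character of the two-dimensional irreducible representation of `GL₂(𝔽₂) = S₃` -/
def ch (M : Matrix (Fin 2) (Fin 2) (ZMod 2)) : ℤ :=
  if M = 1 then 2 else if M 0 0 + M 1 1 = 1 then -1 else 0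

/-- the sign at infinity: `1` on `ϖ^ℤ Iw`, `-1` on `ϖ^ℤ Iw w`, `0` elsewhere -/
noncomputable def ep (g : GL (Fin 2) (Kv none)) : ℤ := by
  classical exact
  if ∃ j : ℤ, Dinf.z ^ j * g ∈ Iw (Kv none) then 1
  else if ∃ j : ℤ, Dinf.z ^ j * g * Dinf.w ∈ Iw (Kv none) then -1 else 0

/-- the test function at `γ g` -/
noncomputable def phi (γ : GL (Fin 2) KK) (g : GA) : ℂ := by
  classical exact
  if ∀ v, locK (some v) γ * g (some v) ∈ maxK (Kv (some v)) then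
    ((sg (red (locK (some pl0) γ * g (some pl0))) * ch (red (locK (some pl1) γ * g (some pl1))) *
      ep (locK none γ * g none) : ℤ) : ℂ) else 0

/-- the cusp form (a Poincare series) -/
noncomputable def fc (g : GA) : ℂ := ∑ᶠ γ : GL (Fin 2) KK, phi γ g

/-- the Poincare series is a finite sum -/
def FinSupp : Prop := ∀ g : GA, (Function.support fun γ : GL (Fin 2) KK => phi γ g).Finite

/-- LL-CU1 -/
def S_cu1 : Prop := FinSupp ∧ LeftInv fc ∧ RightSm fc ∧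
  (∀ g, ∀ k ∈ Iw (Kv none), fc (g * inj none k) = fc g) ∧
  (∀ g, fc (g * inj none Dinf.w) = - fc g) ∧ fc 1 ≠ 0

/-- LL-CU2 -/
def S_cu2 : Prop := FinSupp → ∀ g,
  ∑ t ∈ Dinf.T, fc (g * inj none (lo t)) + fc (g * inj none ws) = 0

/-- LL-CU3 -/
def S_cu3 : Prop := ∀ g : GA, ∃ x₀ : AA, ∀ x : AA, fc (uni (x + x₀) * g) = - fc (uni x * g)

/-- LL-NORM: powers of the idele norm are quasi-characters of the idele class group. -/
def S_norm : Prop := ∀ s : ℝ, ∃ N : HeckeChar, ∀ p (x : (Kv p)ˣ),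
  (N.χ p x : ℂ) = ((nrm p x) ^ s : ℝ)

/-- LL-TRIV: the trivial representation is isobaric. -/
def S_triv : Prop := S_norm → IsIsobaric (1 : Representation ℂ GA ℂ)

/-- LL-SPAN: automorphy of the whole span. -/
def S_span : Prop := ∀ (f : GA → ℂ) (C : ℂ), LeftInv f → RightSm f →
  (∀ g, ∀ k ∈ Iw (Kv none), f (g * inj none k) = f g) →
  (∀ g, f (g * inj none Dinf.w) = - f g - C) →
  (∀ g, ∑ t ∈ Dinf.T, f (g * inj none (lo t)) + f (g * inj none ws) = -C) →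
  ∀ h ∈ Submodule.span ℂ {h | ∃ g, h = rt GA g f}, IsAutForm h

/-- LL-CSPAN: cuspidality of the whole span. -/
def S_cspan : Prop := ∀ f : GA → ℂ, LeftInv f →
  (∀ g : GA, ∃ x₀ : AA, ∀ x : AA, f (uni (x + x₀) * g) = - f (uni x * g)) →
  ∀ h ∈ Submodule.span ℂ {h | ∃ g, h = rt GA g f}, IsCuspidal h

/-- The final theorem. -/
def S_main : Prop := ¬ ∃ l : Irr (GL (Fin 2) (Kv none)) → Irr (GL (Fin 2) (Kv none)),
  ∀ (V V' : Type) [AddCommGroup V] [Module ℂ V] [AddCommGroup V'] [Module ℂ V']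
    (π : Representation ℂ GA V) (σ : Representation ℂ GA V'), IsAutRep π → IsLift π σ →
    ∀ τ τ' : SmIrr (GL (Fin 2) (Kv none)), IsComp π none τ → IsComp σ none τ' →
      l τ.cls = τ'.cls

end Pool.Agent.W526.LL
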