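import Mathlib
import Pool.Agent.W526.LL.Stm

/-! Reduction of matrices modulo the maximal ideal at places with residue field `𝔽₂`. -/

namespace Pool.Agent.W526.LL

open IsDedekindDomain WithZero Polynomial Topology

/-- The residue field at `p` is `𝔽₂`. -/
def Res2 (p : Pl) : Prop := ∀ x : Kv p, Valued.v x ≤ 1 → Valued.v x < 1 ∨ Valued.v (x - 1) < 1

section
variable {p : Pl}

theorem v_eq_one_of_sub {x : Kv p} (h : Valued.v (x - 1) < 1) : Valued.v x = 1 := by
  have e : x = (x - 1) + 1 := by ring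
  have h1 : Valued.v (1 : Kv p) = 1 := map_one _
  rw [e, Valuation.map_add_eq_of_lt_right]
  · exact h1
  · rwa [h1]

theorem bit_of_lt {x : Kv p} (h : Valued.v x < 1) : bit x = 0 := by
  unfold bit; rw [if_pos h]

theorem bit_of_sub {x : Kv p} (h : Valued.v (x - 1) < 1) : bit x = 1 := by
  unfold bit; rw [if_neg]; rw [v_eq_one_of_sub h]; exact lt_irrefl _

@[simp] theorem bit_zero : bit (0 : Kv p) = 0 := bit_of_lt (by simp)
@[simp] theorem bit_one : bit (1 : Kv p) = 1 := bit_of_sub (by simp)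

theorem bit_eq_zero_iff {x : Kv p} : bit x = 0 ↔ Valued.v x < 1 := by
  unfold bit
  constructor
  · intro h
    by_contra hx
    rw [if_neg hx] at h
    exact one_ne_zero h
  · intro h; rw [if_pos h]

theorem bit_add (hp : Res2 p) {x y : Kv p} (hx : Valued.v x ≤ 1) (hy : Valued.v y ≤ 1) :
    bit (x + y) = bit x + bit y := by
  have h11 : (1 : ZMod 2) + 1 = 0 := by decide
  have h2 : Valued.v (2 : Kv p) < 1 := by
    have hc : (2 : Kv p) = 0 := by
      have : ((2 : ZMod 2) : ZMod 2) = 0 := by decide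
      have h3 : cmap p (2 : KK) = 0 := by
        have h4 : (2 : KK) = RatFunc.C (2 : ZMod 2) := by rw [map_ofNat]
        rw [h4, this, map_zero, map_zero]
      rwa [map_ofNat] at h3
    rw [hc, map_zero]; exact zero_lt_one
  rcases hp x hx with h | h <;> rcases hp y hy with h' | h'
  · rw [bit_of_lt h, bit_of_lt h', bit_of_lt ((Valuation.map_add _ _ _).trans_lt (max_lt h h')),
      add_zero]
  · rw [bit_of_lt h, bit_of_sub h', zero_add]
    apply bit_of_sub
    have e : x + y - 1 = x + (y - 1) := by ring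
    rw [e]; exact (Valuation.map_add _ _ _).trans_lt (max_lt h h')
  · rw [bit_of_sub h, bit_of_lt h', add_zero]
    apply bit_of_sub
    have e : x + y - 1 = (x - 1) + y := by ring
    rw [e]; exact (Valuation.map_add _ _ _).trans_lt (max_lt h h')
  · rw [bit_of_sub h, bit_of_sub h', h11]
    apply bit_of_lt
    have e : x + y = (x - 1) + (y - 1) + 2 := by ring
    rw [e]
    exact (Valuation.map_add _ _ _).trans_lt
      (max_lt ((Valuation.map_add _ _ _).trans_lt (max_lt h h')) h2)

theorem bit_mul (hp : Res2 p) {x y : Kv p} (hx : Valued.v x ≤ 1) (hy : Valued.v y ≤ 1) :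
    bit (x * y) = bit x * bit y := by
  rcases hp x hx with h | h
  · rw [bit_of_lt h, zero_mul]
    apply bit_of_lt
    rw [map_mul]
    exact mul_lt_one_of_nonneg_of_lt_one_left zero_le h hy
  rcases hp y hy with h' | h'
  · rw [bit_of_lt h', mul_zero]
    apply bit_of_lt
    rw [map_mul]
    exact mul_lt_one_of_nonneg_of_lt_one_right hx zero_le h'
  · rw [bit_of_sub h, bit_of_sub h', mul_one]
    apply bit_of_sub
    have e : x * y - 1 = x * (y - 1) + (x - 1) := by ring
    rw [e]
    refine (Valuation.map_add _ _ _).trans_lt (max_lt ?_ h)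
    rw [map_mul]
    exact mul_lt_one_of_nonneg_of_lt_one_right hx zero_le h'

/-- Reduction is multiplicative on `GL₂(O_p)`. -/
theorem red_mul (hp : Res2 p) {a b : GL (Fin 2) (Kv p)} (ha : a ∈ maxK (Kv p))
    (hb : b ∈ maxK (Kv p)) : red (a * b) = red a * red b := by
  ext i j
  rw [Matrix.mul_apply, Fin.sum_univ_two]
  show bit ((a * b) i j) = bit (a i 0) * bit (b 0 j) + bit (a i 1) * bit (b 1 j)
  rw [mul_ij, bit_add hp, bit_mul hp (ha.1 _ _) (hb.1 _ _), bit_mul hp (ha.1 _ _) (hb.1 _ _)]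
  · rw [map_mul]; exact mul_le_one' (ha.1 _ _) (hb.1 _ _)
  · rw [map_mul]; exact mul_le_one' (ha.1 _ _) (hb.1 _ _)

theorem red_one : red (1 : GL (Fin 2) (Kv p)) = 1 := by
  ext i j
  show bit ((1 : GL (Fin 2) (Kv p)) i j) = _
  fin_cases i <;> fin_cases j <;> simp

/-- matrices over `𝔽₂` in the general linear group -/
theorem red_det (hp : Res2 p) {a : GL (Fin 2) (Kv p)} (ha : a ∈ maxK (Kv p)) :
    red a * red a⁻¹ = 1 ∧ red a⁻¹ * red a = 1 := by
  rw [← red_mul hp ha (inv_mem ha), ← red_mul hp (inv_mem ha) ha, mul_inv_cancel, inv_mul_cancel,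
    red_one]
  exact ⟨rfl, rfl⟩

end

/-- `sg` is multiplicative on invertible matrices -/
theorem sg_mul : ∀ M N M' N' : Matrix (Fin 2) (Fin 2) (ZMod 2), M * M' = 1 → N * N' = 1 →
    sg (M * N) = sg M * sg N := by
  have h : ∀ a b c d e f g h : ZMod 2, a * d - b * c = 1 → e * h - f * g = 1 →
      sg (!![a, b; c, d] * !![e, f; g, h]) = sg !![a, b; c, d] * sg !![e, f; g, h] := by
    decide
  intro M N M' N' hM hN
  have key : ∀ P Q : Matrix (Fin 2) (Fin 2) (ZMod 2), P * Q = 1 →
      P 0 0 * P 1 1 - P 0 1 * P 1 0 = 1 := by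
    intro P Q hPQ
    have h1 : P.det * Q.det = 1 := by rw [← Matrix.det_mul, hPQ, Matrix.det_one]
    have h2 : ∀ x y : ZMod 2, x * y = 1 → x = 1 := by decide
    have h3 := h2 _ _ h1
    rwa [Matrix.det_fin_two] at h3
  have hM1 := key M M' hM
  have hN1 := key N N' hN
  have := h (M 0 0) (M 0 1) (M 1 0) (M 1 1) (N 0 0) (N 0 1) (N 1 0) (N 1 1) hM1 hN1
  rwa [← Matrix.eta_fin_two M, ← Matrix.eta_fin_two N] at this

end Pool.Agent.W526.LL
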