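import Mathlib
import Pool.Agent.W526.LL.Stm

/-! Surjectivity of the reduction for large twists. -/

namespace Pool.Agent.W526.LL.H3

open IsDedekindDomain WithZero Polynomial Topology Pool.Agent.W526.LL

section
variable {F : Type} [Field F] [Valued F ℤᵐ⁰]

theorem bound (h : GL (Fin 2) F) : ∃ N : ℕ, ∀ i j, Valued.v (h i j) ≤ exp (N : ℤ) := by
  have hx : ∀ x : F, ∃ N : ℕ, Valued.v x ≤ exp (N : ℤ) := by
    intro x
    refine ⟨(log (Valued.v x)).toNat, le_exp_log.trans ?_⟩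
    rw [exp_le_exp]; exact Int.self_le_toNat _
  choose N hN using hx
  refine ⟨∑ i, ∑ j, N (h i j), fun i j => (hN (h i j)).trans ?_⟩
  rw [exp_le_exp]
  have h1 : N (h i j) ≤ ∑ j, N (h i j) :=
    Finset.single_le_sum (f := fun j => N (h i j)) (fun _ _ => Nat.zero_le _) (Finset.mem_univ j)
  have h2 : ∑ j, N (h i j) ≤ ∑ i, ∑ j, N (h i j) :=
    Finset.single_le_sum (f := fun i => ∑ j, N (h i j)) (fun _ _ => Nat.zero_le _)
      (Finset.mem_univ i)
  exact_mod_cast h1.trans h2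

theorem al_inv_mul (D : LD F) (h : GL (Fin 2) F) (j : Fin 2) :
    (D.al⁻¹ * h) 0 j = h 0 j ∧ (D.al⁻¹ * h) 1 j = D.ϖ⁻¹ * h 1 j := by
  have hd : dt D.al = D.ϖ := by simp [LD.al, dg, dt]
  have hne := D.ne
  constructor
  · rw [mul_ij, inv_00, inv_01, hd]
    simp [LD.al, dg, hne]
  · rw [mul_ij, inv_10, inv_11, hd]
    simp [LD.al, dg, hne]

theorem z_pow_mul (D : LD F) (n : ℕ) (h : GL (Fin 2) F) (i j : Fin 2) :
    (D.z ^ n * h) i j = D.ϖ ^ n * h i j := by
  induction n with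
  | zero => simp
  | succ n ih =>
    rw [pow_succ', mul_assoc, mul_ij]
    fin_cases i
    · show D.z 0 0 * (D.z ^ n * h) 0 j + D.z 0 1 * (D.z ^ n * h) 1 j = _
      have e0 : D.z 0 0 = D.ϖ := rfl
      have e1 : D.z 0 1 = 0 := rfl
      rw [e0, e1, zero_mul, add_zero]
      have := ih
      simp only [Fin.zero_eta] at this ⊢
      rw [this, pow_succ']; ring
    · show D.z 1 0 * (D.z ^ n * h) 0 j + D.z 1 1 * (D.z ^ n * h) 1 j = _
      have e0 : D.z 1 0 = 0 := rfl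
      have e1 : D.z 1 1 = D.ϖ := rfl
      rw [e0, e1, zero_mul, zero_add]
      have := ih
      simp only [Fin.mk_one] at this ⊢
      rw [this, pow_succ']; ring

end

theorem zi_central (h : GA) : zi * h = h * zi := by
  refine ext_GA fun q => ?_
  rw [mul_apply, mul_apply]
  rcases eq_or_ne q none with rfl | hq
  · show inj none Dinf.z none * h none = h none * inj none Dinf.z none
    rw [inj_same]
    exact sc_comm _ _ _
  · show inj none Dinf.z q * h q = h q * inj none Dinf.z q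
    rw [inj_ne hq, one_mul, mul_one]

theorem zi_zpow_central (h : GA) (n : ℤ) : zi ^ n * h = h * zi ^ n := by
  have h2 : Commute zi h := zi_central h
  exact (h2.zpow_left n).eq

theorem twist_inv_none (g : GA) (n : ℕ) :
    ((g * zi ^ (-(n : ℤ))) none)⁻¹ = Dinf.z ^ n * (g none)⁻¹ := by
  have e : zi ^ (-(n : ℤ)) = inj none (Dinf.z ^ (-(n : ℤ))) := by
    rw [map_zpow]; rfl
  rw [e, mul_apply, inj_same, mul_inv_rev, zpow_neg, inv_inv, zpow_natCast]

theorem twist_inv_some (g : GA) (n : ℕ) (v : HeightOneSpectrum (ZMod 2)[X]) :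
    ((g * zi ^ (-(n : ℤ))) (some v))⁻¹ = (g (some v))⁻¹ := by
  have e : zi ^ (-(n : ℤ)) = inj none (Dinf.z ^ (-(n : ℤ))) := by
    rw [map_zpow]; rfl
  rw [e, mul_apply, inj_ne (by simp), mul_one]

theorem vec_z (h : GL (Fin 2) (Kv none)) (n : ℕ) (x : KK × KK) (i : Fin 2) :
    vec (Dinf.z ^ n * h) x i = Dinf.ϖ ^ n * vec h x i := by
  unfold vec
  rw [z_pow_mul, z_pow_mul]; ring

theorem vec_add {p : Pl} (h : GL (Fin 2) (Kv p)) (x y : KK × KK) (i : Fin 2) :
    vec h (x + y) i = vec h x i + vec h y i := by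
  simp only [vec, Prod.fst_add, Prod.snd_add, map_add]; ring

theorem vec_sub {p : Pl} (h : GL (Fin 2) (Kv p)) (x y : KK × KK) (i : Fin 2) :
    vec h (x - y) i = vec h x i - vec h y i := by
  simp only [vec, Prod.fst_sub, Prod.snd_sub, map_sub]; ring

theorem mem_Lg {g : GA} {x : KK × KK} : x ∈ Lg g ↔ ∀ p i, Valued.v (vec (g p)⁻¹ x i) ≤ 1 :=
  Iff.rfl

/-- the sublattice defined by the second coordinate -/
theorem mem_al (p : Pl) (D : LD (Kv p)) (g : GA) (x : KK × KK) :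
    x ∈ Lg (g * inj p D.al) ↔ x ∈ Lg g ∧ Valued.v (vec (g p)⁻¹ x 1) < 1 := by
  have hϖ : ∀ y : Kv p, Valued.v (D.ϖ⁻¹ * y) ≤ 1 ↔ Valued.v y < 1 := by
    intro y
    rw [map_mul, map_inv₀, D.hϖ]
    rcases eq_or_ne (Valued.v y) 0 with h0 | h0
    · rw [h0]; simp
    · rw [← exp_log h0, ← exp_neg, ← exp_add, ← exp_zero, exp_le_exp, exp_lt_exp]
      omega
  have h0 : vec ((g * inj p D.al) p)⁻¹ x 0 = vec (g p)⁻¹ x 0 := by
    rw [mul_apply, inj_same, mul_inv_rev]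
    unfold vec
    rw [(al_inv_mul D _ 0).1, (al_inv_mul D _ 1).1]
  have h1 : vec ((g * inj p D.al) p)⁻¹ x 1 = D.ϖ⁻¹ * vec (g p)⁻¹ x 1 := by
    rw [mul_apply, inj_same, mul_inv_rev]
    unfold vec
    rw [(al_inv_mul D _ 0).2, (al_inv_mul D _ 1).2]
    ring
  have h2 : ∀ q, q ≠ p → (g * inj p D.al) q = g q := by
    intro q hq
    rw [mul_apply, inj_ne hq, mul_one]
  constructor
  · intro h
    have hp1 := h p 1
    rw [h1, hϖ] at hp1
    refine ⟨fun q i => ?_, hp1⟩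
    rcases eq_or_ne q p with rfl | hq
    · have : i = 0 ∨ i = 1 := by omega
      rcases this with rfl | rfl
      · have := h q 0; rwa [h0] at this
      · exact hp1.le
    · have := h q i; rwa [h2 q hq] at this
  · rintro ⟨h, hb⟩ q i
    rcases eq_or_ne q p with rfl | hq
    · have : i = 0 ∨ i = 1 := by omega
      rcases this with rfl | rfl
      · rw [h0]; exact h q 0
      · rw [h1, hϖ]; exact hb
    · rw [h2 q hq]; exact h q i

theorem count (p : Pl) (D : LD (Kv p)) (g : GA)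
    (hx : ∀ t ∈ D.T, ∃ x ∈ Lg g, Valued.v (vec (g p)⁻¹ x 1 - t) < 1) :
    HH g = D.T.card * HH (g * inj p D.al) := by
  have hx' : ∀ t : D.T, ∃ x ∈ Lg g, Valued.v (vec (g p)⁻¹ x 1 - t) < 1 := fun t => hx t t.2
  choose xt hxt hxt' using hx'
  have e : Nat.card (Lg g) = Nat.card (D.T × Lg (g * inj p D.al)) := by
    symm
    refine Nat.card_congr (Equiv.ofBijective
      (fun y : D.T × Lg (g * inj p D.al) =>
        (⟨xt y.1 + y.2.1, (Lg g).add_mem (hxt y.1) ((mem_al p D g _).mp y.2.2).1⟩ : Lg g)) ⟨?_, ?_⟩)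
    · rintro ⟨t, x, hx⟩ ⟨t', x', hx'⟩ h
      have h1 : xt t + x = xt t' + x' := congrArg Subtype.val h
      have h2 := ((mem_al p D g _).mp hx).2
      have h2' := ((mem_al p D g _).mp hx').2
      have h3 : vec (g p)⁻¹ (xt t) 1 + vec (g p)⁻¹ x 1 =
          vec (g p)⁻¹ (xt t') 1 + vec (g p)⁻¹ x' 1 := by
        rw [← vec_add, ← vec_add, h1]
      have h4 : (t : Kv p) = t' := by
        apply D.huniq _ t.2 _ t'.2
        have e : (t : Kv p) - t' = (vec (g p)⁻¹ (xt t') 1 - t') - (vec (g p)⁻¹ (xt t) 1 - t)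
            + (vec (g p)⁻¹ x' 1 - vec (g p)⁻¹ x 1) := by linear_combination h3
        rw [e]
        refine (Valuation.map_add _ _ _).trans_lt (max_lt ?_ ?_)
        · exact (Valuation.map_sub _ _ _).trans_lt (max_lt (hxt' t') (hxt' t))
        · exact (Valuation.map_sub _ _ _).trans_lt (max_lt h2' h2)
      have h5 : t = t' := Subtype.ext h4
      subst h5
      simp only [add_right_inj] at h1
      subst h1
      rfl
    · rintro ⟨y, hy⟩
      obtain ⟨t, ht, ht'⟩ := D.hrep _ (hy p 1)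
      refine ⟨⟨⟨t, ht⟩, ⟨y - xt ⟨t, ht⟩, (mem_al p D g _).mpr
        ⟨(Lg g).sub_mem hy (hxt _), ?_⟩⟩⟩, ?_⟩
      · rw [vec_sub]
        have e : vec (g p)⁻¹ y 1 - vec (g p)⁻¹ (xt ⟨t, ht⟩) 1 =
          (vec (g p)⁻¹ y 1 - t) - (vec (g p)⁻¹ (xt ⟨t, ht⟩) 1 - t) := by ring
        rw [e]
        exact (Valuation.map_sub _ _ _).trans_lt (max_lt ht' (hxt' ⟨t, ht⟩))
      · apply Subtype.ext
        show xt ⟨t, ht⟩ + (y - xt ⟨t, ht⟩) = y
        ring
  unfold HH
  rw [e, Nat.card_prod]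
  simp

/-- solving `h x ≡ (0, t)` approximately -/
theorem solve {F : Type} [Field F] (g : GL (Fin 2) F) (t : F) :
    g⁻¹ 0 0 * (g 0 1 * t) + g⁻¹ 0 1 * (g 1 1 * t) = 0 ∧
    g⁻¹ 1 0 * (g 0 1 * t) + g⁻¹ 1 1 * (g 1 1 * t) = t := by
  have h1 : g⁻¹ 0 0 * g 0 1 + g⁻¹ 0 1 * g 1 1 = 0 := by
    rw [← mul_ij, inv_mul_cancel]; rfl
  have h2 : g⁻¹ 1 0 * g 0 1 + g⁻¹ 1 1 * g 1 1 = 1 := by
    rw [← mul_ij, inv_mul_cancel]; rfl
  constructor
  · linear_combination t * h1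
  · linear_combination t * h2

theorem est {F : Type} [Field F] [Valued F ℤᵐ⁰] (h : GL (Fin 2) F) (N : ℕ) {m : ℤ}
    (hN : ∀ i j, Valued.v (h i j) ≤ exp (N : ℤ)) (a b : F) (i : Fin 2)
    (ha : Valued.v a ≤ exp m) (hb : Valued.v b ≤ exp m) :
    Valued.v (h i 0 * a + h i 1 * b) ≤ exp ((N : ℤ) + m) := by
  refine Valued.v.map_add_le ?_ ?_ <;> rw [map_mul, exp_add]
  · exact mul_le_mul' (hN _ _) ha
  · exact mul_le_mul' (hN _ _) hb

theorem fin_integral {g : GA} {d : (ZMod 2)[X]} {v : HeightOneSpectrum (ZMod 2)[X]}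
    (hd : ∀ i j, Valued.v (cmap (some v) (ofPoly d) * g⁻¹ (some v) i j) ≤ 1) (x : KK × KK)
    (h1 : Valued.v (cmap (some v) x.1) ≤ Valued.v (cmap (some v) (ofPoly d)))
    (h2 : Valued.v (cmap (some v) x.2) ≤ Valued.v (cmap (some v) (ofPoly d))) (i : Fin 2) :
    Valued.v (vec (g (some v))⁻¹ x i) ≤ 1 := by
  unfold vec
  refine Valued.v.map_add_le ?_ ?_
  · have := hd i 0
    rw [map_mul] at this ⊢
    rw [mul_comm]
    exact (mul_le_mul' h1 le_rfl).trans this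
  · have := hd i 1
    rw [map_mul] at this ⊢
    rw [mul_comm]
    exact (mul_le_mul' h2 le_rfl).trans this

theorem main (hpol : S_pol) (hsa : S_sa) : S_H3 := by
  intro _ p D g
  obtain ⟨-, -, -, -, hbad⟩ := hpol
  obtain ⟨hsa1, hsa2⟩ := hsa
  obtain ⟨d, hd0, hd⟩ := hbad g⁻¹
  have hcomm : ∀ n : ℕ, g * inj p D.al * zi ^ (-(n : ℤ)) = g * zi ^ (-(n : ℤ)) * inj p D.al := by
    intro n
    rw [mul_assoc, mul_assoc, zi_zpow_central]
  rcases p with _ | v
  · -- the place at infinity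
    obtain ⟨N, hN⟩ := bound (g none)⁻¹
    obtain ⟨δ, hδ⟩ : ∃ δ : ℕ, Valued.v (cmap none (ofPoly d)) ≤ exp (δ : ℤ) := by
      refine ⟨(log (Valued.v (cmap none (ofPoly d)))).toNat, le_exp_log.trans ?_⟩
      rw [exp_le_exp]; exact Int.self_le_toNat _
    refine ⟨N + δ + 1, fun n hn => ?_⟩
    rw [hcomm]
    apply count
    intro t ht
    have hϖn : Dinf.ϖ ^ n ≠ 0 := pow_ne_zero _ Dinf.ne
    obtain ⟨x1, h1, h1'⟩ := hsa2 ((Dinf.ϖ ^ n)⁻¹ * (g none 0 1 * t)) d hd0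
    obtain ⟨x2, h2, h2'⟩ := hsa2 ((Dinf.ϖ ^ n)⁻¹ * (g none 1 1 * t)) d hd0
    obtain ⟨s1, s2⟩ := solve (g none) t
    have key : ∀ i : Fin 2, Valued.v (Dinf.ϖ ^ n * ((g none)⁻¹ i 0 *
        (cmap none x1 - (Dinf.ϖ ^ n)⁻¹ * (g none 0 1 * t)) + (g none)⁻¹ i 1 *
        (cmap none x2 - (Dinf.ϖ ^ n)⁻¹ * (g none 1 1 * t)))) < 1 := by
      intro i
      have e1 := est (g none)⁻¹ N hN _ _ i (h1'.le.trans hδ) (h2'.le.trans hδ)
      rw [map_mul, map_pow, Dinf.hϖ, ← exp_nsmul]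
      refine (mul_le_mul' le_rfl e1).trans_lt ?_
      rw [← exp_add, ← exp_zero, exp_lt_exp]
      simp only [smul_neg, nsmul_eq_mul, mul_one]
      omega
    refine ⟨(x1, x2), ?_, ?_⟩
    · intro q i
      rcases q with _ | w
      · rw [twist_inv_none, vec_z]
        have hk := key i
        have : i = 0 ∨ i = 1 := by omega
        rcases this with rfl | rfl
        · have e : Dinf.ϖ ^ n * vec (g none)⁻¹ (x1, x2) 0 = Dinf.ϖ ^ n * ((g none)⁻¹ 0 0 *
            (cmap none x1 - (Dinf.ϖ ^ n)⁻¹ * (g none 0 1 * t)) + (g none)⁻¹ 0 1 *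
            (cmap none x2 - (Dinf.ϖ ^ n)⁻¹ * (g none 1 1 * t))) := by
            unfold vec
            have h3 : Dinf.ϖ ^ n * (Dinf.ϖ ^ n)⁻¹ = 1 := mul_inv_cancel₀ hϖn
            linear_combination s1 * (Dinf.ϖ ^ n * (Dinf.ϖ ^ n)⁻¹)
          rw [e]; exact hk.le
        · have e : Dinf.ϖ ^ n * vec (g none)⁻¹ (x1, x2) 1 = Dinf.ϖ ^ n * ((g none)⁻¹ 1 0 *
            (cmap none x1 - (Dinf.ϖ ^ n)⁻¹ * (g none 0 1 * t)) + (g none)⁻¹ 1 1 *
            (cmap none x2 - (Dinf.ϖ ^ n)⁻¹ * (g none 1 1 * t))) + t := by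
            unfold vec
            have h3 : Dinf.ϖ ^ n * (Dinf.ϖ ^ n)⁻¹ = 1 := mul_inv_cancel₀ hϖn
            linear_combination s2 * (Dinf.ϖ ^ n * (Dinf.ϖ ^ n)⁻¹) + t * h3
          rw [e]
          exact Valued.v.map_add_le hk.le (D.hT t ht)
      · rw [twist_inv_some]
        exact fin_integral (hd w) (x1, x2) (h1 w) (h2 w) i
    · rw [twist_inv_none, vec_z]
      have hk := key 1
      have e : Dinf.ϖ ^ n * vec (g none)⁻¹ (x1, x2) 1 - t = Dinf.ϖ ^ n * ((g none)⁻¹ 1 0 *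
        (cmap none x1 - (Dinf.ϖ ^ n)⁻¹ * (g none 0 1 * t)) + (g none)⁻¹ 1 1 *
        (cmap none x2 - (Dinf.ϖ ^ n)⁻¹ * (g none 1 1 * t))) := by
        unfold vec
        have h3 : Dinf.ϖ ^ n * (Dinf.ϖ ^ n)⁻¹ = 1 := mul_inv_cancel₀ hϖn
        linear_combination s2 * (Dinf.ϖ ^ n * (Dinf.ϖ ^ n)⁻¹) + t * h3
      rw [e]; exact hk
  · -- a finite place
    obtain ⟨N, hN⟩ := bound (g (some v))⁻¹
    have hex : ∀ t : D.T, ∃ x : KK × KK,
        (∀ w i, Valued.v (vec (g (some w))⁻¹ x i) ≤ 1) ∧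
        Valued.v (vec (g (some v))⁻¹ x 1 - t) < 1 := by
      intro t
      obtain ⟨x1, h1', h1⟩ := hsa1 v (g (some v) 0 1 * t) (N + 1) d hd0
      obtain ⟨x2, h2', h2⟩ := hsa1 v (g (some v) 1 1 * t) (N + 1) d hd0
      obtain ⟨s1, s2⟩ := solve (g (some v)) (t : Kv (some v))
      have key : ∀ i : Fin 2, Valued.v ((g (some v))⁻¹ i 0 *
          (cmap (some v) x1 - (g (some v) 0 1 * t)) + (g (some v))⁻¹ i 1 *
          (cmap (some v) x2 - (g (some v) 1 1 * t))) < 1 := by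
        intro i
        have e1 := est (g (some v))⁻¹ N hN _ _ i h1' h2'
        refine e1.trans_lt ?_
        rw [← exp_zero, exp_lt_exp]
        omega
      have hb : Valued.v (vec (g (some v))⁻¹ (x1, x2) 1 - t) < 1 := by
        have hk := key 1
        have e : vec (g (some v))⁻¹ (x1, x2) 1 - t = (g (some v))⁻¹ 1 0 *
          (cmap (some v) x1 - (g (some v) 0 1 * t)) + (g (some v))⁻¹ 1 1 *
          (cmap (some v) x2 - (g (some v) 1 1 * t)) := by
          unfold vec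
          linear_combination s2
        rw [e]; exact hk
      refine ⟨(x1, x2), fun w i => ?_, hb⟩
      rcases eq_or_ne w v with rfl | hw
      · have : i = 0 ∨ i = 1 := by omega
        rcases this with rfl | rfl
        · have hk := key 0
          have e : vec (g (some w))⁻¹ (x1, x2) 0 = (g (some w))⁻¹ 0 0 *
            (cmap (some w) x1 - (g (some w) 0 1 * t)) + (g (some w))⁻¹ 0 1 *
            (cmap (some w) x2 - (g (some w) 1 1 * t)) := by
            unfold vec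
            linear_combination s1
          rw [e]; exact hk.le
        · have e : vec (g (some w))⁻¹ (x1, x2) 1 =
            (vec (g (some w))⁻¹ (x1, x2) 1 - t) + t := by ring
          rw [e]
          exact Valued.v.map_add_le hb.le (D.hT t t.2)
      · exact fin_integral (hd w) (x1, x2) (h1 w hw) (h2 w hw) i
    choose xt hxt hxt' using hex
    have hbd : ∀ t : D.T, ∃ n₀ : ℕ, ∀ n : ℕ, n₀ ≤ n → ∀ i,
        Valued.v (Dinf.ϖ ^ n * vec (g none)⁻¹ (xt t) i) ≤ 1 := by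
      intro t
      have hb1 : ∀ y : Kv none, ∃ n₀ : ℕ, ∀ n : ℕ, n₀ ≤ n → Valued.v (Dinf.ϖ ^ n * y) ≤ 1 := by
        intro y
        refine ⟨(log (Valued.v y)).toNat, fun n hn => ?_⟩
        rw [map_mul, map_pow, Dinf.hϖ, ← exp_nsmul]
        refine (mul_le_mul' le_rfl le_exp_log).trans ?_
        rw [← exp_add, ← exp_zero, exp_le_exp]
        have := Int.self_le_toNat (log (Valued.v y))
        simp only [smul_neg, nsmul_eq_mul, mul_one]
        omega
      obtain ⟨a, ha⟩ := hb1 (vec (g none)⁻¹ (xt t) 0)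
      obtain ⟨b, hb⟩ := hb1 (vec (g none)⁻¹ (xt t) 1)
      refine ⟨max a b, fun n hn i => ?_⟩
      have : i = 0 ∨ i = 1 := by omega
      rcases this with rfl | rfl
      · exact ha n ((le_max_left _ _).trans hn)
      · exact hb n ((le_max_right _ _).trans hn)
    choose n₀ hn₀ using hbd
    refine ⟨∑ t, n₀ t, fun n hn => ?_⟩
    rw [hcomm]
    apply count
    intro t ht
    have hle : n₀ ⟨t, ht⟩ ≤ n :=
      (Finset.single_le_sum (f := fun t => n₀ t) (fun _ _ => Nat.zero_le _)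
        (Finset.mem_univ (⟨t, ht⟩ : D.T))).trans hn
    refine ⟨xt ⟨t, ht⟩, ?_, ?_⟩
    · intro q i
      rcases q with _ | w
      · rw [twist_inv_none, vec_z]
        exact hn₀ ⟨t, ht⟩ n hle i
      · rw [twist_inv_some]
        exact hxt ⟨t, ht⟩ w i
    · rw [twist_inv_some]
      exact hxt' ⟨t, ht⟩

end Pool.Agent.W526.LL.H3
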