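import Mathlib
import Pool.Agent.W526.LL.Stm

/-! Assembly of the proof. -/

namespace Pool.Agent.W526.LL

open IsDedekindDomain WithZero Polynomial Topology

/-- The span of the right translates of `f`. -/
def gspan (f : GA → ℂ) : Submodule ℂ (GA → ℂ) := Submodule.span ℂ {h | ∃ g, h = rt GA g f}

theorem gspan_inv (f : GA → ℂ) : ∀ g, ∀ F ∈ gspan f, rt GA g F ∈ gspan f := by
  intro g F hF
  induction hF using Submodule.span_induction with
  | mem x hx =>
    obtain ⟨h, rfl⟩ := hx
    rw [← Module.End.mul_apply, ← map_mul]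
    exact Submodule.subset_span ⟨g * h, rfl⟩
  | zero => rw [map_zero]; exact Submodule.zero_mem _
  | add x y _ _ hx hy => rw [map_add]; exact Submodule.add_mem _ hx hy
  | smul c x _ hx => rw [map_smul]; exact Submodule.smul_mem _ c hx

theorem mem_gspan (f : GA → ℂ) : f ∈ gspan f :=
  Submodule.subset_span ⟨1, by rw [map_one]; rfl⟩

/-- The representation on the span. -/
noncomputable def grep (f : GA → ℂ) : Representation ℂ GA (gspan f) where
  toFun g := (rt GA g).restrict (fun F hF => gspan_inv f g F hF)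
  map_one' := by
    ext F
    simp
  map_mul' a b := by
    ext F
    simp

theorem grep_coe (f : GA → ℂ) (g : GA) (F : gspan f) : ((grep f g F : gspan f) : GA → ℂ) =
    rt GA g F := rfl

/-- An irreducible quotient of the span of `f`. -/
theorem exists_quot (hz : S_zorn) (Q : (GA → ℂ) → Prop) (f : GA → ℂ)
    (hQ : ∀ h ∈ gspan f, Q h) (N : Submodule ℂ (GA → ℂ))
    (hN : ∀ g, ∀ F ∈ N, rt GA g F ∈ N) (hf : f ∉ N) :
    ∃ (V : Type) (_ : AddCommGroup V) (_ : Module ℂ V) (ρ : Representation ℂ GA V)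
      (L : gspan f →ₗ[ℂ] V), IsSubquot Q ρ ∧ (∀ g F, L (grep f g F) = ρ g (L F)) ∧
        L ⟨f, mem_gspan f⟩ ≠ 0 ∧ ∀ F : gspan f, (F : GA → ℂ) ∈ N → L F = 0 := by
  obtain ⟨V, i1, i2, ρ, L, hs, he, hi, hy, hn⟩ := hz GA (gspan f) (grep f) ⟨f, mem_gspan f⟩
    (N.comap (gspan f).subtype) (fun g v hv => hN g _ hv) hf (by
      rw [eq_top_iff]
      rintro ⟨F, hF⟩ -
      induction hF using Submodule.span_induction with
      | mem x hx =>
        obtain ⟨h, rfl⟩ := hx
        exact Submodule.subset_span ⟨h, rfl⟩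
      | zero => exact Submodule.zero_mem _
      | add x y hx' hy' hx hy => exact Submodule.add_mem _ hx hy
      | smul c x hx' hx => exact Submodule.smul_mem _ c hx)
  exact ⟨V, i1, i2, ρ, L, ⟨hi, gspan f, hQ, gspan_inv f, L, hs, fun g F => he g F⟩, he, hy,
    fun F hF => hn F hF⟩

/-- the constant functions -/
def consts : Submodule ℂ (GA → ℂ) where
  carrier := {F | ∃ c : ℂ, ∀ g, F g = c}
  add_mem' := by
    rintro a b ⟨c, hc⟩ ⟨d, hd⟩
    exact ⟨c + d, fun g => by rw [Pi.add_apply, hc, hd]⟩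
  zero_mem' := ⟨0, fun _ => rfl⟩
  smul_mem' := by
    rintro r a ⟨c, hc⟩
    exact ⟨r * c, fun g => by rw [Pi.smul_apply, hc, smul_eq_mul]⟩

theorem Dinf_T_sum {M : Type} [AddCommMonoid M] (F : Kv none → M) :
    ∑ t ∈ Dinf.T, F t = F 0 + F 1 := by
  rw [Dinf_T, Finset.sum_pair zero_ne_one]

theorem IsSubquot.mono {V : Type} [AddCommGroup V] [Module ℂ V] {ρ : Representation ℂ GA V}
    {Q R : (GA → ℂ) → Prop} (h : ∀ f, Q f → R f) (hρ : IsSubquot Q ρ) : IsSubquot R ρ := by
  obtain ⟨h1, W, h2, h3⟩ := hρ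
  exact ⟨h1, W, fun f hf => h f (h2 f hf), h3⟩

/-- the trivial representation of `GL₂(K_p)` -/
noncomputable def trivIrr (p : Pl) : SmIrr (GL (Fin 2) (Kv p)) where
  V := ℂ
  ρ := 1
  smooth := fun v => ⟨⊤, isOpen_univ, fun _ _ => rfl⟩
  irr := by
    refine ⟨⟨1, one_ne_zero⟩, fun P _ => ?_⟩
    by_cases h : ∃ x ∈ P, x ≠ (0 : ℂ)
    · right
      obtain ⟨x, hx, hx0⟩ := h
      rw [eq_top_iff]
      intro y _
      have := P.smul_mem (y * x⁻¹) hx
      rwa [smul_eq_mul, mul_assoc, inv_mul_cancel₀ hx0, mul_one] at this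
    · left
      push Not at h
      rw [eq_bot_iff]
      intro y hy
      exact h y hy

/-- The final assembly. -/
theorem assembly (hcomp : S_comp) (hunr : S_unr) (hzorn : S_zorn) (hiso : S_iso)
    (heis : ∃ f C, EisForm f C) (hcusp : S_cusp)
    (htriv : IsIsobaric (1 : Representation ℂ GA ℂ))
    (hcomp1 : ∀ (p : Pl) (τ : SmIrr (GL (Fin 2) (Kv p))), (∀ g v, τ.ρ g v = v) →
      IsComp (1 : Representation ℂ GA ℂ) p τ)
    (hsm : ∀ f C, EisForm f C → RightSm f)
    (hspan : S_span) (hcspan : S_cspan) (hld : S_ld) : S_main := by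
  rintro ⟨l, hl⟩
  -- the Eisenstein constituent
  obtain ⟨f, C, hf⟩ := heis
  have hfiw : ∀ g, ∀ k ∈ Iw (Kv none), f (g * inj none k) = f g := by
    intro g k hk
    apply hf.right
    · intro p
      rcases eq_or_ne p none with rfl | hp
      · rw [inj_same]; exact Iw_le hk
      · rw [inj_ne hp]; exact one_mem _
    · rw [inj_same]; exact hk
  have hfK : ∀ v, ∀ g, ∀ k ∈ maxK (Kv (some v)), f (g * inj (some v) k) = f g := by
    intro v g k hk
    apply hf.right
    · intro p
      rcases eq_or_ne p (some v) with rfl | hp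
      · rw [inj_same]; exact hk
      · rw [inj_ne hp]; exact one_mem _
    · rw [inj_ne (by simp)]; exact one_mem _
  have hfc : f ∉ consts := by
    rintro ⟨c, hc⟩
    have h1 := hf.w 1
    have h2 := hf.har 1
    rw [Dinf_T_sum] at h2
    simp only [hc] at h1 h2
    apply hf.hC
    linear_combination 3 * h1 - 2 * h2
  obtain ⟨V, iV, iV', π, L, hπ, hLe, hLy, hLN⟩ := exists_quot hzorn IsAutForm f
    (hspan f C hf.left (hsm f C hf) hfiw hf.w hf.har) consts (by
      rintro g F ⟨c, hc⟩
      exact ⟨c, fun x => hc _⟩) hfc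
  have hπirr : IsIrr π := hπ.1
  have hLf : ∀ g, π g (L ⟨f, mem_gspan f⟩) = L (grep f g ⟨f, mem_gspan f⟩) :=
    fun g => (hLe g _).symm
  have hst : IsSt Dinf (π.comp (inj none)) (L ⟨f, mem_gspan f⟩) := by
    constructor
    · intro k hk
      show π (inj none k) _ = _
      rw [hLf]
      congr 1
      apply Subtype.ext
      funext g
      exact hfiw g k hk
    · show π (inj none Dinf.w) _ = _
      rw [hLf, eq_neg_iff_add_eq_zero, ← map_add]
      apply hLN
      refine ⟨-C, fun g => ?_⟩
      show f (g * inj none Dinf.w) + f g = -C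
      rw [hf.w]; ring
    · have e : ∀ k, (π.comp (inj none)) k (L ⟨f, mem_gspan f⟩) =
        L (grep f (inj none k) ⟨f, mem_gspan f⟩) := fun k => hLf _
      simp only [e]
      rw [← map_sum, ← map_add]
      apply hLN
      refine ⟨-C, fun g => ?_⟩
      have h := hf.har g
      rw [Dinf_T_sum] at h ⊢
      exact h
  obtain ⟨⟨τ, ⟨y, hy0, hy⟩, hτ⟩, hnu⟩ := hcomp none Dinf V π hπirr _ hLy hst
  have hlift : IsLift π (1 : Representation ℂ GA ℂ) := by
    refine ⟨htriv, ?_⟩
    rintro (_ | v) σ hσ hu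
    · exact absurd hu (hnu σ hσ)
    · apply hcomp1
      obtain ⟨D, hD, -⟩ := hld v
      have hact : ∀ (g : GL (Fin 2) (Kv (some v))) (x : V), π (inj (some v) g) x = x := by
        apply hunr (some v) D V π hπirr (L ⟨f, mem_gspan f⟩) hLy
        · intro k hk
          rw [hLf]
          congr 1
          apply Subtype.ext
          funext g
          exact hfK v g k hk
        · rw [hLf]
          congr 1
          apply Subtype.ext
          funext g
          exact hf.zv v D g
        · simp only [hLf]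
          rw [← map_sum, ← map_add, ← map_smul]
          congr 1
          apply Subtype.ext
          funext g
          have h := hf.tv v D g
          simp only [Submodule.coe_add, Submodule.coe_sum, Submodule.coe_smul, Pi.add_apply,
            Finset.sum_apply, Pi.smul_apply, smul_eq_mul]
          exact h
      -- some nonzero equivariant map exists
      have hex : ∃ A : σ.V →ₗ[ℂ] V, (∀ g v', A (σ.ρ g v') = π (inj (some v) g) (A v')) ∧
          A ≠ 0 := by
        by_contra hno
        push Not at hno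
        obtain ⟨x, hx⟩ := hπirr.1
        have : x ∈ Submodule.span ℂ {w : V | ∃ A : σ.V →ₗ[ℂ] V,
            (∀ g v', A (σ.ρ g v') = π (inj (some v) g) (A v')) ∧ ∃ v', w = A v'} := by
          rw [hσ]; trivial
        have hbot : Submodule.span ℂ {w : V | ∃ A : σ.V →ₗ[ℂ] V,
            (∀ g v', A (σ.ρ g v') = π (inj (some v) g) (A v')) ∧ ∃ v', w = A v'} ≤ ⊥ := by
          rw [Submodule.span_le]
          rintro w ⟨A, hA, v', rfl⟩
          rw [hno A hA]
          simp
        exact hx ((Submodule.mem_bot ℂ).mp (hbot this))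
      obtain ⟨A, hA, hA0⟩ := hex
      have hker : LinearMap.ker A = ⊥ := by
        rcases σ.irr.2 (LinearMap.ker A) (fun g x hx => by
          rw [LinearMap.mem_ker] at hx ⊢
          rw [hA, hx, map_zero]) with h | h
        · exact h
        · exact absurd (LinearMap.ker_eq_top.mp h) hA0
      intro g x
      have hinj : Function.Injective A := LinearMap.ker_eq_bot.mp hker
      apply hinj
      rw [hA, hact]
  have e1 := hl V ℂ π 1 (IsSubquot.mono (fun _ h => h) hπ) hlift τ (trivIrr none) hτ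
    (hcomp1 none _ (fun _ _ => rfl))
  -- the cusp form
  obtain ⟨f', hf'⟩ := hcusp
  have hf'0 : f' ∉ (⊥ : Submodule ℂ (GA → ℂ)) := by
    intro h
    obtain ⟨g, hg⟩ := hf'.ne
    apply hg
    rw [(Submodule.mem_bot ℂ).mp h]; rfl
  obtain ⟨V', jV, jV', π', L', hπ', hLe', hLy', -⟩ := exists_quot hzorn
    (fun f => IsAutForm f ∧ IsCuspidal f) f'
    (fun h hh => ⟨hspan f' 0 hf'.left hf'.right hf'.iw (by simpa using hf'.w)
      (by simpa using hf'.har) h hh, hcspan f' hf'.left hf'.anti h hh⟩) ⊥ (by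
      intro g F hF
      rw [(Submodule.mem_bot ℂ).mp hF, map_zero]; exact Submodule.zero_mem _) hf'0
  have hLf' : ∀ g, π' g (L' ⟨f', mem_gspan f'⟩) = L' (grep f' g ⟨f', mem_gspan f'⟩) :=
    fun g => (hLe' g _).symm
  have hst' : IsSt Dinf (π'.comp (inj none)) (L' ⟨f', mem_gspan f'⟩) := by
    constructor
    · intro k hk
      show π' (inj none k) _ = _
      rw [hLf']
      congr 1
      apply Subtype.ext
      funext g
      exact hf'.iw g k hk
    · show π' (inj none Dinf.w) _ = _
      rw [hLf', ← map_neg]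
      congr 1
      apply Subtype.ext
      funext g
      exact hf'.w g
    · have e : ∀ k, (π'.comp (inj none)) k (L' ⟨f', mem_gspan f'⟩) =
        L' (grep f' (inj none k) ⟨f', mem_gspan f'⟩) := fun k => hLf' _
      simp only [e]
      rw [← map_sum, ← map_add, ← map_zero L']
      congr 1
      apply Subtype.ext
      funext g
      have h := hf'.har g
      simp only [Submodule.coe_add, Submodule.coe_sum, Pi.add_apply, Finset.sum_apply]
      exact h
  obtain ⟨⟨τ', ⟨y', hy0', hy'⟩, hτ'⟩, -⟩ := hcomp none Dinf V' π' hπ'.1 _ hLy' hst'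
  have hlift' : IsLift π' π' := ⟨Or.inl hπ', fun p τ h _ => h⟩
  have e2 := hl V' V' π' π' (IsSubquot.mono (fun _ h => h.1) hπ') hlift' τ' τ' hτ' hτ'
  -- the local components are isomorphic
  have hI : SmIrr.Iso τ τ' := hiso (Kv none) Dinf τ τ' y y' hy0 hy0' hy hy'
  have e3 : τ.cls = τ'.cls := Quotient.sound hI
  rw [e3, e2] at e1
  obtain ⟨φ, hφ⟩ : SmIrr.Iso τ' (trivIrr none) := Quotient.exact e1
  apply hy0'
  have h1 := hφ Dinf.w y'
  rw [hy'.w, map_neg] at h1
  have h2 : (trivIrr none).ρ Dinf.w (φ y') = φ y' := rfl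
  rw [h2] at h1
  have h3 : φ y' = 0 := by
    have h4 : φ y' + φ y' = 0 := by
      nth_rewrite 1 [← h1]
      rw [neg_add_cancel]
    have h5 : (2 : ℂ) • φ y' = 0 := by rw [two_smul]; exact h4
    exact (smul_eq_zero.mp h5).resolve_left two_ne_zero
  exact (LinearEquiv.map_eq_zero_iff φ).mp h3

end Pool.Agent.W526.LL
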