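import Mathlib
import Pool.Agent.W526.LL.Main
import Pool.Agent.W526.LL.Red
import Pool.Agent.W526.LL.H3
import Pool.Agent.W466.LLDec
import Pool.Agent.W344.LLQuo
import Pool.Agent.W826.LLTop
import Pool.Agent.W565.LLC12
import Pool.Agent.W830.LLC3
import Pool.Agent.W544.LL.Iso
import Pool.Agent.W366.LLComp
import Pool.Agent.W599.LL.Unr
import Pool.Agent.W344.LLZorn
import Pool.Agent.W344.LLLd
import Pool.Agent.W272.LLPOL
import Pool.Agent.W991.LLSA
import Pool.Agent.W848.LLH1
import Pool.Agent.W131.LLH2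
import Pool.Agent.W340.LLEis
import Pool.Agent.W655.LLNorm
import Pool.Agent.W272.LLTRIV
import Pool.Agent.W54.LLSpan
import Pool.Agent.W469.LLCspan
import Pool.Agent.W766.LLCU1
import Pool.Agent.W526.LL.CU2
import Pool.Agent.W376.LLC.Cu3

/-! The final theorem from its parts. -/

namespace Pool.Agent.W526.LL

open IsDedekindDomain WithZero Polynomial Topology

theorem hC : S_C := by
  have hdec : S_dec := Pool.Agent.W466.LLDec.main
  have hquo : S_quo := Pool.Agent.W344.LLQuo.main
  intro F _ _ D V _ _ ρ y hy S hS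
  obtain ⟨h1, h2, h4⟩ := Pool.Agent.W565.LLC12.main hdec hquo F D V ρ y hy S hS
  exact ⟨h1, h2, Pool.Agent.W830.LLC3.main hdec hquo F D V ρ y hy S hS, h4⟩

theorem hpol : S_pol := Pool.Agent.W272.LLPOL.main

theorem hopen : S_open := Pool.Agent.W826.LLTop.main

theorem countData : CountData HH := by
  obtain ⟨hfin, hleft, hright, hone, hscal⟩ := Pool.Agent.W848.LLH1.main hpol
  refine
    { left := hleft
      right := hright
      pos := fun g => ?_
      one := hone
      sur := fun p D g => Pool.Agent.W526.LL.H3.main hpol (Pool.Agent.W991.LLSA.main hpol)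
        hfin p D g
      count := fun p D g => Pool.Agent.W131.LLH2.main hfin p D g
      scal := hscal }
  have := hfin g
  exact Nat.card_pos

theorem heis : ∃ f C, EisForm f C := Pool.Agent.W340.LLEis.main HH countData

theorem hcusp : S_cusp := by
  obtain ⟨h0, h1⟩ := Pool.Agent.W344.LLLd.res
  obtain ⟨hfin, hleft, hright, hiw, hw, hne⟩ := Pool.Agent.W766.LLCU1.main hopen hpol
  exact ⟨fc,
    { left := hleft
      right := hright
      iw := hiw
      w := hw
      har := Pool.Agent.W526.LLCU2.main h0 h1 hfin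
      ne := ⟨1, hne⟩
      anti := Pool.Agent.W376.LLC.main h0 }⟩

/-- Invariance under the product of the `GL₂(O_p)` and the Iwahori subgroup at infinity gives
invariance under an open subgroup. -/
theorem hsm (f : GA → ℂ) (C : ℂ) (hf : EisForm f C) : RightSm f := by
  have hK : ∀ p, IsOpen (maxK (Kv p) : Set (GL (Fin 2) (Kv p))) := by
    intro p
    obtain ⟨a, ha⟩ := exists_unif_K p
    exact (hopen (Kv p) (cmap p a) ha).2.2.1
  have hI : IsOpen (Iw (Kv none) : Set (GL (Fin 2) (Kv none))) :=
    (hopen (Kv none) Dinf.ϖ Dinf.hϖ).2.1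
  let U : Subgroup GA :=
    { carrier := {k | (∀ p, k p ∈ maxK (Kv p)) ∧ k none ∈ Iw (Kv none)}
      mul_mem' := by
        rintro a b ⟨ha, ha'⟩ ⟨hb, hb'⟩
        exact ⟨fun p => mul_mem (ha p) (hb p), mul_mem ha' hb'⟩
      one_mem' := ⟨fun p => one_mem _, one_mem _⟩
      inv_mem' := by
        rintro a ⟨ha, ha'⟩
        exact ⟨fun p => inv_mem (ha p), inv_mem ha'⟩ }
  refine ⟨U, ?_, fun u hu g => hf.right g u hu.1 hu.2⟩
  have h1 : IsOpen {k : GA | ∀ p, k p ∈ (maxK (Kv p) : Set (GL (Fin 2) (Kv p)))} :=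
    RestrictedProduct.isOpen_forall_mem hK
  have h2 : IsOpen {k : GA | k none ∈ (Iw (Kv none) : Set (GL (Fin 2) (Kv none)))} :=
    hI.preimage (RestrictedProduct.continuous_eval none)
  exact h1.inter h2

theorem main : S_main := by
  have hdec : S_dec := Pool.Agent.W466.LLDec.main
  have hquo : S_quo := Pool.Agent.W344.LLQuo.main
  exact assembly (Pool.Agent.W366.LLComp.main hC hquo hopen)
    (Pool.Agent.W599.LL.Unr.main hC hdec) Pool.Agent.W344.LLZorn.main
    (Pool.Agent.W544.LL.Iso.main hC hopen) heis hcusp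
    (Pool.Agent.W272.LLTRIV.main (Pool.Agent.W655.LLNorm.main hpol))
    Pool.Agent.W272.LLTRIV.comp hsm (W54.LLSpan.main hC hopen)
    Pool.Agent.W469.LLCspan.main Pool.Agent.W344.LLLd.main

end Pool.Agent.W526.LL
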