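import Mathlib
import Pool.Agent.W526.LL.Auto

/-! The definitions used in the statement, over short names for the groups. -/

namespace Pool.Agent.W526.LL.Stat

open IsDedekindDomain WithZero Polynomial Topology Pool.Agent.W526.LL
open scoped RestrictedProduct

/-- `GL₂(K_p)` -/
def Gp (p : Pl) : Type := GL (Fin 2) (Kv p)

noncomputable instance instGroupGp (p : Pl) : Group (Gp p) :=
  (inferInstance : Group (GL (Fin 2) (Kv p)))

noncomputable instance instTopGp (p : Pl) : TopologicalSpace (Gp p) :=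
  (inferInstance : TopologicalSpace (GL (Fin 2) (Kv p)))

/-- `GL₂(K)` -/
def Gk : Type := GL (Fin 2) KK

/-- The map `GL₂(K) → GL₂(K_p)`. -/
noncomputable def lok (p : Pl) (γ : Gk) : Gp p := locK p γ

/-- `GL₂(O_p)` -/
noncomputable def Mk (p : Pl) : Subgroup (Gp p) := maxK (Kv p)

/-- The adelic group `GL₂(𝔸)`. -/
def Ga : Type := Πʳ p : Pl, [GL (Fin 2) (Kv p), (maxK (Kv p) : Set (GL (Fin 2) (Kv p)))]

noncomputable instance instGroupGa : Group Ga := (inferInstance : Group GA)

noncomputable instance instTopGa : TopologicalSpace Ga := (inferInstance : TopologicalSpace GA)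

/-- The component at `p`. -/
def cmp (g : Ga) (p : Pl) : Gp p := @DFunLike.coe GA Pl (fun p => GL (Fin 2) (Kv p)) _ g p

/-- The subgroup `GL₂(K_p)` of `GL₂(𝔸)`: the elements whose components outside `p` are trivial. -/
def At (p : Pl) (x : Ga) : Prop := ∀ q, q ≠ p → cmp x q = 1

/-- The adeles. -/
def Ad : Type := AA

noncomputable instance instAddGa : AddCommGroup Ad := (inferInstance : AddCommGroup AA)

noncomputable instance instTopAd : TopologicalSpace Ad := (inferInstance : TopologicalSpace AA)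

/-- The component of an adele at `p`. -/
def acmp (x : Ad) (p : Pl) : Kv p := @DFunLike.coe AA Pl Kv _ x p

/-- The unipotent element `(1 x; 0 1)`, `x ∈ 𝔸`. -/
noncomputable def nn (x : Ad) : Ga := uni x

/-- `K_pˣ` -/
def Kx (p : Pl) : Type := (Kv p)ˣ

noncomputable instance instGroupKx (p : Pl) : CommGroup (Kx p) :=
  (inferInstance : CommGroup (Kv p)ˣ)

noncomputable instance instTopKx (p : Pl) : TopologicalSpace (Kx p) :=
  (inferInstance : TopologicalSpace (Kv p)ˣ)

/-- The valuation of an element of `K_pˣ` (multiplicative, a uniformiser has value `exp (-1)`). -/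
noncomputable def vx (p : Pl) (x : Kx p) : ℤᵐ⁰ := Valued.v (@Units.val (Kv p) _ x)

/-- The embedding of `Kˣ` in `K_pˣ`. -/
noncomputable def kx (p : Pl) (a : KKˣ) : Kx p :=
  Units.map (algebraMap KK (Kv p)).toMonoidHom a

/-- The matrix `(a b; 0 d)`. -/
noncomputable def br (p : Pl) (a d : Kx p) (b : Kv p) : Gp p :=
  bor (F := Kv p) a d b

/-- Right translation: `(tr h f)(g) = f(g h)`. -/
def tr {G : Type} [Group G] (h : G) (f : G → ℂ) : G → ℂ := fun g => f (g * h)

/-! ### Automorphic forms and representations -/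

/-- Left invariance under `GL₂(K)` (embedded diagonally). -/
def LeftInv (f : Ga → ℂ) : Prop :=
  ∀ (γ : Gk) (g g' : Ga), (∀ p, cmp g' p = lok p γ * cmp g p) → f g' = f g

/-- Right invariance under some open subgroup. -/
def RightSm (f : Ga → ℂ) : Prop :=
  ∃ U : Subgroup Ga, IsOpen (U : Set Ga) ∧ ∀ u ∈ U, ∀ g, f (g * u) = f g

/-- The span of the right translates of `f` under `GL₂(K_p)`. -/
def locSpan (p : Pl) (f : Ga → ℂ) : Submodule ℂ (Ga → ℂ) :=
  Submodule.span ℂ {F | ∃ h : Ga, At p h ∧ F = tr h f}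

/-- Automorphic forms on `GL₂(𝔸)` (Borel–Jacquet, function field case): left invariant under
`GL₂(K)`, right invariant under an open subgroup, and for some place `p` the right translates
under `GL₂(K_p)` span an admissible representation of `GL₂(K_p)`: for every open subgroup `U` of
`GL₂(K_p)` the vectors fixed by `U` lie in a finite-dimensional space. -/
def IsAutForm (f : Ga → ℂ) : Prop :=
  LeftInv f ∧ RightSm f ∧ ∃ p : Pl, ∀ U : Subgroup (Gp p), IsOpen (U : Set (Gp p)) →
    ∃ P : Submodule ℂ (Ga → ℂ), FiniteDimensional ℂ P ∧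
      ∀ F ∈ locSpan p f, (∀ u : Ga, At p u → cmp u p ∈ U → tr u F = F) → F ∈ P

/-- The diagonally embedded field `K` in the adeles. -/
def diagK : AddSubgroup Ad where
  carrier := {x | ∃ a : KK, ∀ p, acmp x p = cmap p a}
  add_mem' := by
    rintro x y ⟨a, ha⟩ ⟨b, hb⟩
    exact ⟨a + b, fun p => by rw [map_add, ← ha, ← hb]; rfl⟩
  zero_mem' := ⟨0, fun p => by rw [map_zero]; rfl⟩
  neg_mem' := by
    rintro x ⟨a, ha⟩
    exact ⟨-a, fun p => by rw [map_neg, ← ha]; rfl⟩

/-- Cuspidality: the integral over `K \ 𝔸` of `x ↦ f(n(x) g)` vanishes for every `g`. The integrand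
is invariant under some open subgroup `Ω` of `𝔸`, and the integral is (up to normalisation) the
sum over the finite group `𝔸 / (K + Ω)`. -/
def IsCuspidal (f : Ga → ℂ) : Prop :=
  ∀ (g : Ga) (Ω : AddSubgroup Ad), IsOpen (Ω : Set Ad) →
    (∀ (x ω : Ad), ω ∈ Ω → f (nn (x + ω) * g) = f (nn x * g)) →
    ∑ᶠ c : Ad ⧸ (diagK ⊔ Ω), f (nn (Quotient.out c) * g) = 0

section Rep

variable {V : Type} [AddCommGroup V] [Module ℂ V]

/-- An irreducible representation of `GL₂(𝔸)` which is a quotient of an invariant space `W` of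
functions with the property `Q` (the equivariant surjection `W → V` is the restriction to `W` of a
linear map `L`). -/
def IsSubquot (Q : (Ga → ℂ) → Prop) (ρ : Representation ℂ Ga V) : Prop :=
  IsIrr ρ ∧ ∃ (W : Submodule ℂ (Ga → ℂ)) (L : (Ga → ℂ) →ₗ[ℂ] V),
    (∀ f ∈ W, Q f) ∧ (∀ g, ∀ f ∈ W, tr g f ∈ W) ∧ (∀ v, ∃ f ∈ W, L f = v) ∧
    ∀ g, ∀ f ∈ W, L (tr g f) = ρ g (L f)

/-- Automorphic representations: irreducible subquotients of the space of automorphic forms. -/
def IsAutRep (ρ : Representation ℂ Ga V) : Prop := IsSubquot IsAutForm ρ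

/-- Cuspidal automorphic representations. -/
def IsCuspRep (ρ : Representation ℂ Ga V) : Prop :=
  IsSubquot (fun f => IsAutForm f ∧ IsCuspidal f) ρ

/-- `τ` is the local component at `p` of the irreducible representation `ρ`: the restriction of
`ρ` to `GL₂(K_p)` is a sum of copies of `τ`. -/
def IsComp (ρ : Representation ℂ Ga V) (p : Pl) (τ : SmIrr (Gp p)) : Prop :=
  Submodule.span ℂ {w : V | ∃ A : τ.V →ₗ[ℂ] V,
    (∀ g v, At p g → A (τ.ρ (cmp g p) v) = ρ g (A v)) ∧ ∃ v, w = A v} = ⊤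

end Rep

/-- `τ` is unramified: it has a nonzero vector fixed by `GL₂(O_p)`. -/
def Unr {p : Pl} (τ : SmIrr (Gp p)) : Prop :=
  ∃ v : τ.V, v ≠ 0 ∧ ∀ k ∈ Mk p, τ.ρ k v = v

/-! ### Isobaric representations of `GL₂` -/

/-- The normalised absolute value at `p`, on units. -/
noncomputable def nrm (p : Pl) (x : Kx p) : ℝ := (qn p : ℝ) ^ (WithZero.log (vx p x))

/-- Quasi-characters of the idele class group `𝔸ˣ / Kˣ`, given by their local components: the
local components are continuous, almost all of them are unramified, and the product is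
trivial on `Kˣ`. -/
structure HeckeChar where
  /-- local components -/
  χ : ∀ p : Pl, Kx p →* ℂˣ
  cont : ∀ p, ∃ U : Subgroup (Kx p), IsOpen (U : Set (Kx p)) ∧ ∀ u ∈ U, χ p u = 1
  unr : ∀ᶠ p in Filter.cofinite, ∀ u : Kx p, vx p u = 1 → χ p u = 1
  glob : ∀ a : KKˣ, ∏ᶠ p, χ p (kx p a) = 1

/-- Functions in the normalised principal series `Ind(χ₁, χ₂)`. -/
def InPS (p : Pl) (χ₁ χ₂ : Kx p →* ℂˣ) (φ : Gp p → ℂ) : Prop :=
  (∃ U : Subgroup (Gp p), IsOpen (U : Set (Gp p)) ∧ ∀ u ∈ U, ∀ g, φ (g * u) = φ g) ∧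
  ∀ (a d : Kx p) (b : Kv p) (g : Gp p),
    φ (br p a d b * g) = (χ₁ a : ℂ) * (χ₂ d : ℂ) * ((nrm p (a / d)) ^ (1 / 2 : ℝ) : ℝ) * φ g

/-- `τ` is a subrepresentation of the principal series `Ind(χ₁, χ₂)`. -/
def EmbPS (p : Pl) (χ₁ χ₂ : Kx p →* ℂˣ) (τ : SmIrr (Gp p)) : Prop :=
  ∃ j : τ.V →ₗ[ℂ] (Gp p → ℂ), Function.Injective j ∧
    (∀ v, InPS p χ₁ χ₂ (j v)) ∧ ∀ g v, j (τ.ρ g v) = tr g (j v)

/-- Isobaric automorphic representations of `GL₂(𝔸)`: cuspidal ones, and the isobaric sums
`χ₁ ⊞ χ₂` of two quasi-characters of the idele class group, numbered so that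
`|χ₁| = |χ₂| |·|ˢ` with `s ≥ 0`; the local component at `p` of the latter is the Langlands quotient
of `Ind(χ₁, χ₂)`, that is the irreducible subrepresentation of `Ind(χ₂, χ₁)`. -/
def IsIsobaric {V : Type} [AddCommGroup V] [Module ℂ V] (ρ : Representation ℂ Ga V) : Prop :=
  IsCuspRep ρ ∨ (IsAutRep ρ ∧ ∃ (χ₁ χ₂ : HeckeChar) (s : ℝ), 0 ≤ s ∧
    (∀ p (x : Kx p), ‖(χ₁.χ p x : ℂ)‖ = ‖(χ₂.χ p x : ℂ)‖ * (nrm p x) ^ s) ∧
    ∀ p, ∃ τ : SmIrr (Gp p), IsComp ρ p τ ∧ EmbPS p (χ₂.χ p) (χ₁.χ p) τ)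

/-- `σ` is a global lifting of `π` for the standard representation of the dual group `GL₂(ℂ)`
(for which the unramified local lifting is the identity). -/
def IsLift {V V' : Type} [AddCommGroup V] [Module ℂ V] [AddCommGroup V'] [Module ℂ V']
    (π : Representation ℂ Ga V) (σ : Representation ℂ Ga V') : Prop :=
  IsIsobaric σ ∧ ∀ (p : Pl) (τ : SmIrr (Gp p)), IsComp π p τ → Unr τ → IsComp σ p τ

end Pool.Agent.W526.LL.Stat
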