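import Mathlib
import Pool.Agent.W526.LL.Stat
import Pool.Agent.W526.LL.Final

/-! The theorem over the short names. -/

namespace Pool.Agent.W526.LL.Bridge

open Pool.Agent.W526.LL

theorem at_inj (p : Pl) (h : GL (Fin 2) (Kv p)) : Stat.At p (inj p h) :=
  fun _ hq => inj_ne hq h

theorem cmp_inj (p : Pl) (h : GL (Fin 2) (Kv p)) : Stat.cmp (inj p h) p = h := inj_same p h

theorem eq_inj {p : Pl} {x : Stat.Ga} (hx : Stat.At p x) : x = inj p (Stat.cmp x p) := by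
  refine ext_GA fun q => ?_
  rcases eq_or_ne q p with rfl | hq
  · exact (inj_same q _).symm
  · exact (hx q hq).trans (inj_ne hq _).symm

theorem locSpan_eq (p : Pl) (f : GA → ℂ) : Stat.locSpan p f = locSpan p f := by
  unfold Stat.locSpan locSpan
  congr 1
  ext F
  constructor
  · rintro ⟨x, hx, rfl⟩
    refine ⟨Stat.cmp x p, ?_⟩
    rw [← eq_inj hx]; rfl
  · rintro ⟨h, rfl⟩
    exact ⟨inj p h, at_inj p h, rfl⟩

theorem autForm (f : GA → ℂ) (h : IsAutForm f) : Stat.IsAutForm f := by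
  obtain ⟨h1, h2, p, h3⟩ := h
  refine ⟨h1, h2, p, fun U hU => ⟨fixedIn p U (locSpan p f), h3 U hU, ?_⟩⟩
  intro F hF hu
  rw [locSpan_eq] at hF
  exact ⟨hF, fun u hu' => hu (inj p u) (at_inj p u) (by rw [cmp_inj]; exact hu')⟩

theorem subquot {V : Type} [AddCommGroup V] [Module ℂ V] (ρ : Representation ℂ GA V)
    (Q R : (GA → ℂ) → Prop) (hQR : ∀ f, Q f → R f) (h : IsSubquot Q ρ) :
    Stat.IsSubquot (V := V) R ρ := by
  obtain ⟨h1, W, h2, h3, L, h4, h5⟩ := h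
  obtain ⟨L', hL'⟩ := LinearMap.exists_extend L
  have e : ∀ (f : GA → ℂ) (hf : f ∈ W), L' f = L ⟨f, hf⟩ := by
    intro f hf
    have := congrArg (fun A => A ⟨f, hf⟩) hL'
    exact this
  refine ⟨h1, W, L', fun f hf => hQR f (h2 f hf), h3, fun v => ?_, fun g f hf => ?_⟩
  · obtain ⟨f, hf⟩ := h4 v
    exact ⟨f.1, f.2, (e f.1 f.2).trans hf⟩
  · exact (e _ (h3 g f hf)).trans ((h5 g ⟨f, hf⟩).trans (congrArg (ρ g) (e f hf).symm))

theorem aut {V : Type} [AddCommGroup V] [Module ℂ V] (ρ : Representation ℂ GA V)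
    (h : IsAutRep ρ) : Stat.IsAutRep (V := V) ρ :=
  subquot ρ _ _ autForm h

theorem cusp {V : Type} [AddCommGroup V] [Module ℂ V] (ρ : Representation ℂ GA V)
    (h : IsCuspRep ρ) : Stat.IsCuspRep (V := V) ρ :=
  subquot ρ _ _ (fun f hf => ⟨autForm f hf.1, hf.2⟩) h

theorem comp {V : Type} [AddCommGroup V] [Module ℂ V] (ρ : Representation ℂ GA V) (p : Pl)
    (τ : SmIrr (GL (Fin 2) (Kv p))) : IsComp ρ p τ ↔ Stat.IsComp (V := V) ρ p τ := by
  unfold IsComp Stat.IsComp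
  have e : {w : V | ∃ A : τ.V →ₗ[ℂ] V,
      (∀ g v, A (τ.ρ g v) = ρ (inj p g) (A v)) ∧ ∃ v, w = A v} = {w : V | ∃ A : τ.V →ₗ[ℂ] V,
      (∀ g v, Stat.At p g → A (τ.ρ (Stat.cmp g p) v) = ρ g (A v)) ∧ ∃ v, w = A v} := by
    ext w
    constructor
    · rintro ⟨A, hA, hw⟩
      refine ⟨A, fun g v hg => ?_, hw⟩
      have := hA (Stat.cmp g p) v
      rw [← eq_inj hg] at this
      exact this
    · rintro ⟨A, hA, hw⟩
      refine ⟨A, fun g v => ?_, hw⟩
      have := hA (inj p g) v (at_inj p g)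
      rw [cmp_inj] at this
      exact this
  rw [e]
  rfl

/-- transport of quasi-characters -/
noncomputable def hc (χ : HeckeChar) : Stat.HeckeChar :=
  { χ := χ.χ
    cont := χ.cont
    unr := χ.unr
    glob := χ.glob }

theorem iso {V : Type} [AddCommGroup V] [Module ℂ V] (ρ : Representation ℂ GA V)
    (h : IsIsobaric ρ) : Stat.IsIsobaric (V := V) ρ := by
  rcases h with h | ⟨h, χ₁, χ₂, s, hs, h1, h2⟩
  · exact Or.inl (cusp ρ h)
  · refine Or.inr ⟨aut ρ h, hc χ₁, hc χ₂, s, hs, h1, fun p => ?_⟩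
    obtain ⟨τ, hτ, hτ'⟩ := h2 p
    exact ⟨τ, (comp ρ p τ).mp hτ, hτ'⟩

theorem lift {V V' : Type} [AddCommGroup V] [Module ℂ V] [AddCommGroup V'] [Module ℂ V']
    (π : Representation ℂ GA V) (σ : Representation ℂ GA V') (h : IsLift π σ) :
    Stat.IsLift (V := V) (V' := V') π σ :=
  ⟨iso σ h.1, fun p τ hτ hu => (comp σ p τ).mp (h.2 p τ ((comp π p τ).mpr hτ) hu)⟩

theorem main : ¬ ∃ l : Irr (Stat.Gp none) → Irr (Stat.Gp none),
    ∀ (V V' : Type) [AddCommGroup V] [Module ℂ V] [AddCommGroup V'] [Module ℂ V']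
      (π : Representation ℂ Stat.Ga V) (σ : Representation ℂ Stat.Ga V'),
      Stat.IsAutRep π → Stat.IsLift π σ →
      ∀ τ τ' : SmIrr (Stat.Gp none), Stat.IsComp π none τ → Stat.IsComp σ none τ' →
        l τ.cls = τ'.cls := by
  rintro ⟨l, hl⟩
  apply LL.main
  refine ⟨l, ?_⟩
  intro V V' _ _ _ _ π σ hπ hσ τ τ' hτ hτ'
  exact hl V V' π σ (aut π hπ) (lift π σ hσ) τ τ' ((comp π none τ).mp hτ)
    ((comp σ none τ').mp hτ')

end Pool.Agent.W526.LL.Bridge
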